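import Pool.Agent.Helper672.ZFA.Arith
import Pool.Agent.Helper672.ZFA.Order

/-!
# Additive filters on an internal semigroup

In a model of set theory (choice is not used), `α` is an internal semigroup that is internally
countable. An additive filter extends to an additive filter that decides a given set.
-/

set_option linter.unusedTactic false
set_option linter.unreachableTactic false
set_option linter.unusedSectionVars false

namespace Pool.Agent.U78.ZE

open Pool.Agent.Helper672.ZFA

universe u u₁ u₂

variable {M : Type u} [L.Structure M] [hM : IsModel M]
variable {α : Type u₁} [ITy M α] {γ : Type u₂} [ITy M γ]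

/-! ### Filters -/

/-- The complement. -/
noncomputable def cpl (A : IPow M α) : IPow M α := sep M fun x => ¬ x ∈ A

@[simp] theorem mem_cpl {A : IPow M α} {x : α} : x ∈ cpl A ↔ ¬ x ∈ A := by
  unfold cpl
  rw [mem_sep (by (repeat first | with_reducible exact Int.const _ | with_reducible exact IntF.const _ | with_reducible exact IntF.id | with_reducible exact IntF.fst' | with_reducible exact IntF.snd' | with_reducible assumption | with_reducible apply Int.and | with_reducible apply Int.or | with_reducible apply Int.not | with_reducible apply Int.imp | with_reducible apply Int.iff | with_reducible apply Int.ex | with_reducible apply Int.all | with_reducible apply Int.eq | with_reducible apply Int.ne | with_reducible apply Int.mem | with_reducible apply Int.subset | with_reducible apply IntF.fst | with_reducible apply IntF.snd | with_reducible apply IntF.pair | with_reducible apply IntF.sep | with_reducible_and_instances apply IntF.add | with_reducible apply IntF.inter | with_reducible apply IntF.union | with_reducible apply IntF.app | with_reducible apply IntF.succ | with_reducible ((refine Int.comp ?_ ?_); assumption) | with_reducible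 ((refine IntF.comp ?_ ?_); assumption) | with_reducible ((refine IntF.comp₂ ?_ ?_ ?_); assumption) | with_reducible ((refine Int.comp₂ ?_ ?_ ?_); assumption)))]

theorem IntF.cpl {A : γ → IPow M α} (hA : IntF M A) : IntF M (fun c => cpl (A c)) := by
  unfold ZE.cpl
  (repeat first | with_reducible exact Int.const _ | with_reducible exact IntF.const _ | with_reducible exact IntF.id | with_reducible exact IntF.fst' | with_reducible exact IntF.snd' | with_reducible assumption | with_reducible apply Int.and | with_reducible apply Int.or | with_reducible apply Int.not | with_reducible apply Int.imp | with_reducible apply Int.iff | with_reducible apply Int.ex | with_reducible apply Int.all | with_reducible apply Int.eq | with_reducible apply Int.ne | with_reducible apply Int.mem | with_reducible apply Int.subset | with_reducible apply IntF.fst | with_reducible apply IntF.snd | with_reducible apply IntF.pair | with_reducible apply IntF.sep | with_reducible_and_instances apply IntF.add | with_reducible apply IntF.inter | with_reducible apply IntF.union | with_reducible apply IntF.app | with_reducible apply IntF.succ | with_reducible ((refine Int.comp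 ?_ ?_); assumption) | with_reducible ((refine IntF.comp ?_ ?_); assumption) | with_reducible ((refine IntF.comp₂ ?_ ?_ ?_); assumption) | with_reducible ((refine Int.comp₂ ?_ ?_ ?_); assumption))

theorem cpl_cpl (A : IPow M α) : cpl (cpl A) = A := IPow.ext' fun x => by simp

theorem cpl_subset {A B : IPow M α} (h : A ⊆ B) : cpl B ⊆ cpl A := fun x hx => by
  rw [mem_cpl] at hx ⊢
  exact fun h1 => hx (h x h1)

/-- Filters. -/
def Fil (F : IPow M (IPow M α)) : Prop :=
  iuniv M α ∈ F ∧ ¬ (∅ : IPow M α) ∈ F ∧ (∀ A B, A ∈ F → A ⊆ B → B ∈ F) ∧
    ∀ A B, A ∈ F → B ∈ F → A ∩ B ∈ F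

theorem Int.fil {F : γ → IPow M (IPow M α)} (hF : IntF M F) : Int M (fun c => Fil (F c)) := by
  unfold Fil
  (repeat first | with_reducible exact Int.const _ | with_reducible exact IntF.const _ | with_reducible exact IntF.id | with_reducible exact IntF.fst' | with_reducible exact IntF.snd' | with_reducible assumption | with_reducible apply Int.and | with_reducible apply Int.or | with_reducible apply Int.not | with_reducible apply Int.imp | with_reducible apply Int.iff | with_reducible apply Int.ex | with_reducible apply Int.all | with_reducible apply Int.eq | with_reducible apply Int.ne | with_reducible apply Int.mem | with_reducible apply Int.subset | with_reducible apply IntF.fst | with_reducible apply IntF.snd | with_reducible apply IntF.pair | with_reducible apply IntF.sep | with_reducible_and_instances apply IntF.add | with_reducible apply IntF.inter | with_reducible apply IntF.union | with_reducible apply IntF.app | with_reducible apply IntF.succ | with_reducible ((refine Int.comp ?_ ?_); assumption) | with_reducible ((refine IntF.comp ?_ ?_); assumption) | with_reducible ((refine IntF.comp₂ ?_ ?_ ?_); assumption) | with_reducible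 ((refine Int.comp₂ ?_ ?_ ?_); assumption))

/-- Ultrafilters. -/
def Ult (F : IPow M (IPow M α)) : Prop := Fil F ∧ ∀ A, A ∈ F ∨ cpl A ∈ F

theorem Int.ult {F : γ → IPow M (IPow M α)} (hF : IntF M F) : Int M (fun c => Ult (F c)) := by
  unfold Ult
  (repeat first | with_reducible exact Int.const _ | with_reducible exact IntF.const _ | with_reducible exact IntF.id | with_reducible exact IntF.fst' | with_reducible exact IntF.snd' | with_reducible assumption | with_reducible apply Int.and | with_reducible apply Int.or | with_reducible apply Int.not | with_reducible apply Int.imp | with_reducible apply Int.iff | with_reducible apply Int.ex | with_reducible apply Int.all | with_reducible apply Int.eq | with_reducible apply Int.ne | with_reducible apply Int.mem | with_reducible apply Int.subset | with_reducible apply IntF.fst | with_reducible apply IntF.snd | with_reducible apply IntF.pair | with_reducible apply IntF.sep | with_reducible_and_instances apply IntF.add | with_reducible apply IntF.inter | with_reducible apply IntF.union | with_reducible apply IntF.app | with_reducible apply IntF.succ | with_reducible apply Int.fil | with_reducible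 apply IntF.cpl | with_reducible ((refine Int.comp ?_ ?_); assumption) | with_reducible ((refine IntF.comp ?_ ?_); assumption) | with_reducible ((refine IntF.comp₂ ?_ ?_ ?_); assumption) | with_reducible ((refine Int.comp₂ ?_ ?_ ?_); assumption))

theorem Fil.not_both {F : IPow M (IPow M α)} (hF : Fil F) {A : IPow M α} (h : A ∈ F)
    (h' : cpl A ∈ F) : False := by
  have h1 := hF.2.2.2 _ _ h h'
  have h2 : A ∩ cpl A = ∅ := IPow.ext' fun x => by simp
  rw [h2] at h1
  exact hF.2.1 h1

theorem Fil.nonempty {F : IPow M (IPow M α)} (hF : Fil F) {A : IPow M α} (h : A ∈ F) :
    ∃ x, x ∈ A := by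
  by_contra h1
  push Not at h1
  have h2 : A = ∅ := IPow.ext' fun x => by simp [h1 x]
  rw [h2] at h
  exact hF.2.1 h

theorem Ult.cpl_iff {F : IPow M (IPow M α)} (hF : Ult F) {A : IPow M α} :
    cpl A ∈ F ↔ ¬ A ∈ F :=
  ⟨fun h h' => hF.1.not_both h' h, fun h => (hF.2 A).resolve_left h⟩

/-- The filter generated by `G` and `E`. -/
noncomputable def mix (G E : IPow M (IPow M α)) : IPow M (IPow M α) :=
  sep M fun X => ∃ C A, C ∈ G ∧ A ∈ E ∧ C ∩ A ⊆ X

theorem mem_mix {G E : IPow M (IPow M α)} {X : IPow M α} :
    X ∈ mix G E ↔ ∃ C A, C ∈ G ∧ A ∈ E ∧ C ∩ A ⊆ X := by
  unfold mix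
  rw [mem_sep (by (repeat first | with_reducible exact Int.const _ | with_reducible exact IntF.const _ | with_reducible exact IntF.id | with_reducible exact IntF.fst' | with_reducible exact IntF.snd' | with_reducible assumption | with_reducible apply Int.and | with_reducible apply Int.or | with_reducible apply Int.not | with_reducible apply Int.imp | with_reducible apply Int.iff | with_reducible apply Int.ex | with_reducible apply Int.all | with_reducible apply Int.eq | with_reducible apply Int.ne | with_reducible apply Int.mem | with_reducible apply Int.subset | with_reducible apply IntF.fst | with_reducible apply IntF.snd | with_reducible apply IntF.pair | with_reducible apply IntF.sep | with_reducible_and_instances apply IntF.add | with_reducible apply IntF.inter | with_reducible apply IntF.union | with_reducible apply IntF.app | with_reducible apply IntF.succ | with_reducible ((refine Int.comp ?_ ?_); assumption) | with_reducible ((refine IntF.comp ?_ ?_); assumption) | with_reducible ((refine IntF.comp₂ ?_ ?_ ?_); assumption) | with_reducible ((refine Int.comp₂ ?_ ?_ ?_); assumption)))]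

theorem IntF.mix {G E : γ → IPow M (IPow M α)} (hG : IntF M G) (hE : IntF M E) :
    IntF M (fun c => mix (G c) (E c)) := by
  unfold ZE.mix
  (repeat first | with_reducible exact Int.const _ | with_reducible exact IntF.const _ | with_reducible exact IntF.id | with_reducible exact IntF.fst' | with_reducible exact IntF.snd' | with_reducible assumption | with_reducible apply Int.and | with_reducible apply Int.or | with_reducible apply Int.not | with_reducible apply Int.imp | with_reducible apply Int.iff | with_reducible apply Int.ex | with_reducible apply Int.all | with_reducible apply Int.eq | with_reducible apply Int.ne | with_reducible apply Int.mem | with_reducible apply Int.subset | with_reducible apply IntF.fst | with_reducible apply IntF.snd | with_reducible apply IntF.pair | with_reducible apply IntF.sep | with_reducible_and_instances apply IntF.add | with_reducible apply IntF.inter | with_reducible apply IntF.union | with_reducible apply IntF.app | with_reducible apply IntF.succ | with_reducible ((refine Int.comp ?_ ?_); assumption) | with_reducible ((refine IntF.comp ?_ ?_); assumption) | with_reducible ((refine IntF.comp₂ ?_ ?_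 ?_); assumption) | with_reducible ((refine Int.comp₂ ?_ ?_ ?_); assumption))

theorem fil_mix {G E : IPow M (IPow M α)} (hG : Fil G) (hE : ∀ A B, A ∈ E → B ∈ E → A ∩ B ∈ E)
    (hne : ∃ A, A ∈ E) (h : ∀ C A, C ∈ G → A ∈ E → ∃ x, x ∈ C ∧ x ∈ A) : Fil (mix G E) := by
  refine ⟨?_, ?_, ?_, ?_⟩
  · obtain ⟨A, hA⟩ := hne
    exact mem_mix.2 ⟨_, A, hG.1, hA, fun x _ => by simp⟩
  · intro h1
    obtain ⟨C, A, hC, hA, h2⟩ := mem_mix.1 h1
    obtain ⟨x, hx, hx'⟩ := h C A hC hA
    exact absurd (h2 x (mem_inter.2 ⟨hx, hx'⟩)) (by simp)
  · intro X Y hX hXY
    obtain ⟨C, A, hC, hA, h2⟩ := mem_mix.1 hX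
    exact mem_mix.2 ⟨C, A, hC, hA, fun x hx => hXY x (h2 x hx)⟩
  · intro X Y hX hY
    obtain ⟨C, A, hC, hA, h2⟩ := mem_mix.1 hX
    obtain ⟨C', A', hC', hA', h2'⟩ := mem_mix.1 hY
    refine mem_mix.2 ⟨C ∩ C', A ∩ A', hG.2.2.2 _ _ hC hC', hE _ _ hA hA', fun x hx => ?_⟩
    simp only [mem_inter] at hx
    rw [mem_inter]
    exact ⟨h2 x (mem_inter.2 ⟨hx.1.1, hx.2.1⟩), h2' x (mem_inter.2 ⟨hx.1.2, hx.2.2⟩)⟩

theorem subset_mix_left {G E : IPow M (IPow M α)} (hne : ∃ A, A ∈ E) : G ⊆ mix G E := by
  obtain ⟨A, hA⟩ := hne
  intro C hC
  exact mem_mix.2 ⟨C, A, hC, hA, fun x hx => (mem_inter.1 hx).1⟩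

theorem subset_mix_right {G E : IPow M (IPow M α)} (hG : Fil G) : E ⊆ mix G E := by
  intro A hA
  exact mem_mix.2 ⟨_, A, hG.1, hA, fun x hx => (mem_inter.1 hx).2⟩

/-! ### Shifts -/

section semigroup

variable [AddSemigroup α] [IAdd M α]

/-- The shift `A - n`. -/
noncomputable def sh (A : IPow M α) (n : α) : IPow M α := sep M fun m => m + n ∈ A

theorem mem_sh {A : IPow M α} {n m : α} : m ∈ sh A n ↔ m + n ∈ A := by
  unfold sh
  rw [mem_sep (by (repeat first | with_reducible exact Int.const _ | with_reducible exact IntF.const _ | with_reducible exact IntF.id | with_reducible exact IntF.fst' | with_reducible exact IntF.snd' | with_reducible assumption | with_reducible apply Int.and | with_reducible apply Int.or | with_reducible apply Int.not | with_reducible apply Int.imp | with_reducible apply Int.iff | with_reducible apply Int.ex | with_reducible apply Int.all | with_reducible apply Int.eq | with_reducible apply Int.ne | with_reducible apply Int.mem | with_reducible apply Int.subset | with_reducible apply IntF.fst | with_reducible apply IntF.snd | with_reducible apply IntF.pair | with_reducible apply IntF.sep | with_reducible_and_instances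 apply IntF.add | with_reducible apply IntF.inter | with_reducible apply IntF.union | with_reducible apply IntF.app | with_reducible apply IntF.succ | with_reducible ((refine Int.comp ?_ ?_); assumption) | with_reducible ((refine IntF.comp ?_ ?_); assumption) | with_reducible ((refine IntF.comp₂ ?_ ?_ ?_); assumption) | with_reducible ((refine Int.comp₂ ?_ ?_ ?_); assumption)))]

theorem IntF.sh {A : γ → IPow M α} {n : γ → α} (hA : IntF M A) (hn : IntF M n) :
    IntF M (fun c => sh (A c) (n c)) := by
  unfold ZE.sh
  (repeat first | with_reducible exact Int.const _ | with_reducible exact IntF.const _ | with_reducible exact IntF.id | with_reducible exact IntF.fst' | with_reducible exact IntF.snd' | with_reducible assumption | with_reducible apply Int.and | with_reducible apply Int.or | with_reducible apply Int.not | with_reducible apply Int.imp | with_reducible apply Int.iff | with_reducible apply Int.ex | with_reducible apply Int.all | with_reducible apply Int.eq | with_reducible apply Int.ne | with_reducible apply Int.mem | with_reducible apply Int.subset | with_reducible apply IntF.fst | with_reducible apply IntF.snd | with_reducible apply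 IntF.pair | with_reducible apply IntF.sep | with_reducible_and_instances apply IntF.add | with_reducible apply IntF.inter | with_reducible apply IntF.union | with_reducible apply IntF.app | with_reducible apply IntF.succ | with_reducible ((refine Int.comp ?_ ?_); assumption) | with_reducible ((refine IntF.comp ?_ ?_); assumption) | with_reducible ((refine IntF.comp₂ ?_ ?_ ?_); assumption) | with_reducible ((refine Int.comp₂ ?_ ?_ ?_); assumption))

theorem sh_sh (A : IPow M α) (n k : α) : sh (sh A n) k = sh A (k + n) :=
  IPow.ext' fun x => by rw [mem_sh, mem_sh, mem_sh, add_assoc]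

theorem sh_cpl (A : IPow M α) (n : α) : sh (cpl A) n = cpl (sh A n) :=
  IPow.ext' fun x => by rw [mem_sh, mem_cpl, mem_cpl, mem_sh]

theorem sh_inter (A B : IPow M α) (n : α) : sh (A ∩ B) n = sh A n ∩ sh B n :=
  IPow.ext' fun x => by simp only [mem_sh, mem_inter]

theorem sh_mono {A B : IPow M α} (h : A ⊆ B) (n : α) : sh A n ⊆ sh B n := fun x hx => by
  rw [mem_sh] at hx ⊢
  exact h _ hx

/-- The set of all `n` such that `A - n` is in `V`. -/
noncomputable def dd (V : IPow M (IPow M α)) (A : IPow M α) : IPow M α :=
  sep M fun n => sh A n ∈ V

theorem mem_dd {V : IPow M (IPow M α)} {A : IPow M α} {n : α} : n ∈ dd V A ↔ sh A n ∈ V := by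
  unfold dd
  rw [mem_sep (by (repeat first | with_reducible exact Int.const _ | with_reducible exact IntF.const _ | with_reducible exact IntF.id | with_reducible exact IntF.fst' | with_reducible exact IntF.snd' | with_reducible assumption | with_reducible apply Int.and | with_reducible apply Int.or | with_reducible apply Int.not | with_reducible apply Int.imp | with_reducible apply Int.iff | with_reducible apply Int.ex | with_reducible apply Int.all | with_reducible apply Int.eq | with_reducible apply Int.ne | with_reducible apply Int.mem | with_reducible apply Int.subset | with_reducible apply IntF.fst | with_reducible apply IntF.snd | with_reducible apply IntF.pair | with_reducible apply IntF.sep | with_reducible_and_instances apply IntF.add | with_reducible apply IntF.inter | with_reducible apply IntF.union | with_reducible apply IntF.app | with_reducible apply IntF.succ | with_reducible apply IntF.sh | with_reducible ((refine Int.comp ?_ ?_); assumption) | with_reducible ((refine IntF.comp ?_ ?_); assumption) | with_reducible ((refine IntF.comp₂ ?_ ?_ ?_); assumption) | with_reducible ((refine Int.comp₂ ?_ ?_ ?_); assumption)))]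

theorem IntF.dd {V : γ → IPow M (IPow M α)} {A : γ → IPow M α} (hV : IntF M V)
    (hA : IntF M A) : IntF M (fun c => dd (V c) (A c)) := by
  unfold ZE.dd
  (repeat first | with_reducible exact Int.const _ | with_reducible exact IntF.const _ | with_reducible exact IntF.id | with_reducible exact IntF.fst' | with_reducible exact IntF.snd' | with_reducible assumption | with_reducible apply Int.and | with_reducible apply Int.or | with_reducible apply Int.not | with_reducible apply Int.imp | with_reducible apply Int.iff | with_reducible apply Int.ex | with_reducible apply Int.all | with_reducible apply Int.eq | with_reducible apply Int.ne | with_reducible apply Int.mem | with_reducible apply Int.subset | with_reducible apply IntF.fst | with_reducible apply IntF.snd | with_reducible apply IntF.pair | with_reducible apply IntF.sep | with_reducible_and_instances apply IntF.add | with_reducible apply IntF.inter | with_reducible apply IntF.union | with_reducible apply IntF.app | with_reducible apply IntF.succ | with_reducible apply IntF.sh | with_reducible ((refine Int.comp ?_ ?_); assumption) | with_reducible ((refine IntF.comp ?_ ?_); assumption)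 | with_reducible ((refine IntF.comp₂ ?_ ?_ ?_); assumption) | with_reducible ((refine Int.comp₂ ?_ ?_ ?_); assumption))

theorem dd_sh (V : IPow M (IPow M α)) (A : IPow M α) (k : α) : dd V (sh A k) = sh (dd V A) k :=
  IPow.ext' fun x => by rw [mem_dd, mem_sh, mem_dd, sh_sh]

theorem dd_mono_left {V W : IPow M (IPow M α)} (h : V ⊆ W) (A : IPow M α) :
    dd V A ⊆ dd W A := fun x hx => by
  rw [mem_dd] at hx ⊢
  exact h _ hx

theorem dd_mono {V : IPow M (IPow M α)} (hV : Fil V) {A B : IPow M α} (h : A ⊆ B) :
    dd V A ⊆ dd V B := fun x hx => by
  rw [mem_dd] at hx ⊢
  exact hV.2.2.1 _ _ hx (sh_mono h x)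

theorem dd_inter {V : IPow M (IPow M α)} (hV : Fil V) (A B : IPow M α) :
    dd V (A ∩ B) = dd V A ∩ dd V B := by
  refine IPow.ext' fun x => ?_
  rw [mem_inter, mem_dd, mem_dd, mem_dd, sh_inter]
  constructor
  · intro h
    exact ⟨hV.2.2.1 _ _ h fun y hy => (mem_inter.1 hy).1,
      hV.2.2.1 _ _ h fun y hy => (mem_inter.1 hy).2⟩
  · rintro ⟨h, h'⟩
    exact hV.2.2.2 _ _ h h'

/-- Additive filters. -/
def Addv (F : IPow M (IPow M α)) : Prop :=
  Fil F ∧ ∀ V, Ult V → F ⊆ V → ∀ A, A ∈ F → dd V A ∈ F

theorem Int.addv {F : γ → IPow M (IPow M α)} (hF : IntF M F) : Int M (fun c => Addv (F c)) := by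
  unfold Addv
  (repeat first | with_reducible exact Int.const _ | with_reducible exact IntF.const _ | with_reducible exact IntF.id | with_reducible exact IntF.fst' | with_reducible exact IntF.snd' | with_reducible assumption | with_reducible apply Int.and | with_reducible apply Int.or | with_reducible apply Int.not | with_reducible apply Int.imp | with_reducible apply Int.iff | with_reducible apply Int.ex | with_reducible apply Int.all | with_reducible apply Int.eq | with_reducible apply Int.ne | with_reducible apply Int.mem | with_reducible apply Int.subset | with_reducible apply IntF.fst | with_reducible apply IntF.snd | with_reducible apply IntF.pair | with_reducible apply IntF.sep | with_reducible_and_instances apply IntF.add | with_reducible apply IntF.inter | with_reducible apply IntF.union | with_reducible apply IntF.app | with_reducible apply IntF.succ | with_reducible apply Int.fil | with_reducible apply Int.ult | with_reducible apply IntF.dd | with_reducible ((refine Int.comp ?_ ?_); assumption) | with_reducible ((refine IntF.comp ?_ ?_); assumption) | with_reducible ((refine IntF.comp₂ ?_ ?_ ?_); assumption) | with_reducible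 ((refine Int.comp₂ ?_ ?_ ?_); assumption))

/-! ### The sets that are decided together with their shifts -/

/-- `w` decides `A` and all its shifts. -/
noncomputable def dec (w : IPow M (IPow M α)) : IPow M (IPow M α) :=
  sep M fun A => (A ∈ w ∨ cpl A ∈ w) ∧ ∀ n, sh A n ∈ w ∨ cpl (sh A n) ∈ w

theorem mem_dec {w : IPow M (IPow M α)} {A : IPow M α} :
    A ∈ dec w ↔ (A ∈ w ∨ cpl A ∈ w) ∧ ∀ n, sh A n ∈ w ∨ cpl (sh A n) ∈ w := by
  unfold dec
  rw [mem_sep (by (repeat first | with_reducible exact Int.const _ | with_reducible exact IntF.const _ | with_reducible exact IntF.id | with_reducible exact IntF.fst' | with_reducible exact IntF.snd' | with_reducible assumption | with_reducible apply Int.and | with_reducible apply Int.or | with_reducible apply Int.not | with_reducible apply Int.imp | with_reducible apply Int.iff | with_reducible apply Int.ex | with_reducible apply Int.all | with_reducible apply Int.eq | with_reducible apply Int.ne | with_reducible apply Int.mem | with_reducible apply Int.subset | with_reducible apply IntF.fst | with_reducible apply IntF.snd | with_reducible apply IntF.pair | with_reducible apply IntF.sep | with_reducible_and_instances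 apply IntF.add | with_reducible apply IntF.inter | with_reducible apply IntF.union | with_reducible apply IntF.app | with_reducible apply IntF.succ | with_reducible apply IntF.sh | with_reducible apply IntF.cpl | with_reducible ((refine Int.comp ?_ ?_); assumption) | with_reducible ((refine IntF.comp ?_ ?_); assumption) | with_reducible ((refine IntF.comp₂ ?_ ?_ ?_); assumption) | with_reducible ((refine Int.comp₂ ?_ ?_ ?_); assumption)))]

theorem IntF.dec {w : γ → IPow M (IPow M α)} (hw : IntF M w) : IntF M (fun c => dec (w c)) := by
  unfold ZE.dec
  (repeat first | with_reducible exact Int.const _ | with_reducible exact IntF.const _ | with_reducible exact IntF.id | with_reducible exact IntF.fst' | with_reducible exact IntF.snd' | with_reducible assumption | with_reducible apply Int.and | with_reducible apply Int.or | with_reducible apply Int.not | with_reducible apply Int.imp | with_reducible apply Int.iff | with_reducible apply Int.ex | with_reducible apply Int.all | with_reducible apply Int.eq | with_reducible apply Int.ne | with_reducible apply Int.mem | with_reducible apply Int.subset | with_reducible apply IntF.fst | with_reducible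 apply IntF.snd | with_reducible apply IntF.pair | with_reducible apply IntF.sep | with_reducible_and_instances apply IntF.add | with_reducible apply IntF.inter | with_reducible apply IntF.union | with_reducible apply IntF.app | with_reducible apply IntF.succ | with_reducible apply IntF.sh | with_reducible apply IntF.cpl | with_reducible ((refine Int.comp ?_ ?_); assumption) | with_reducible ((refine IntF.comp ?_ ?_); assumption) | with_reducible ((refine IntF.comp₂ ?_ ?_ ?_); assumption) | with_reducible ((refine Int.comp₂ ?_ ?_ ?_); assumption))

theorem dec_sh {w : IPow M (IPow M α)} {A : IPow M α} (h : A ∈ dec w) (n : α) :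
    sh A n ∈ dec w := by
  rw [mem_dec] at h ⊢
  refine ⟨h.2 n, fun k => ?_⟩
  rw [sh_sh]
  exact h.2 _

theorem dec_cpl {w : IPow M (IPow M α)} {A : IPow M α} (h : A ∈ dec w) : cpl A ∈ dec w := by
  rw [mem_dec] at h ⊢
  rw [cpl_cpl]
  refine ⟨h.1.symm, fun k => ?_⟩
  rw [sh_cpl, cpl_cpl]
  exact (h.2 k).symm

theorem dec_inter_aux {w : IPow M (IPow M α)} (hw : Fil w) {A B : IPow M α}
    (hA : A ∈ w ∨ cpl A ∈ w) (hB : B ∈ w ∨ cpl B ∈ w) : A ∩ B ∈ w ∨ cpl (A ∩ B) ∈ w := by
  rcases hA with hA | hA
  · rcases hB with hB | hB
    · exact Or.inl (hw.2.2.2 _ _ hA hB)
    · exact Or.inr (hw.2.2.1 _ _ hB (cpl_subset fun x hx => (mem_inter.1 hx).2))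
  · exact Or.inr (hw.2.2.1 _ _ hA (cpl_subset fun x hx => (mem_inter.1 hx).1))

theorem dec_inter {w : IPow M (IPow M α)} (hw : Fil w) {A B : IPow M α} (hA : A ∈ dec w)
    (hB : B ∈ dec w) : A ∩ B ∈ dec w := by
  rw [mem_dec] at hA hB ⊢
  refine ⟨dec_inter_aux hw hA.1 hB.1, fun n => ?_⟩
  rw [sh_inter]
  exact dec_inter_aux hw (hA.2 n) (hB.2 n)

theorem univ_dec {w : IPow M (IPow M α)} (hw : Fil w) : iuniv M α ∈ dec w := by
  rw [mem_dec]
  refine ⟨Or.inl hw.1, fun n => Or.inl ?_⟩
  have h : sh (iuniv M α) n = iuniv M α := IPow.ext' fun x => by simp [mem_sh]
  rw [h]
  exact hw.1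

theorem dd_cpl {w : IPow M (IPow M α)} (hw : Fil w) {A : IPow M α} (hA : A ∈ dec w) :
    dd w (cpl A) = cpl (dd w A) := by
  refine IPow.ext' fun x => ?_
  rw [mem_cpl, mem_dd, mem_dd, sh_cpl]
  exact ⟨fun h h' => hw.not_both h' h, fun h => ((mem_dec.1 hA).2 x).resolve_left h⟩

theorem dd_univ {w : IPow M (IPow M α)} (hw : Fil w) : dd w (iuniv M α) = iuniv M α := by
  refine IPow.ext' fun x => ?_
  have h : sh (iuniv M α) x = iuniv M α := IPow.ext' fun y => by simp [mem_sh]
  rw [mem_dd, h]
  simp [hw.1]

/-! ### The two extensions -/

/-- The generators of the first extension. -/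
noncomputable def gen1 (w G : IPow M (IPow M α)) : IPow M (IPow M α) :=
  sep M fun A => A ∈ dec w ∧ dd w A ∈ G

theorem mem_gen1 {w G : IPow M (IPow M α)} {A : IPow M α} :
    A ∈ gen1 w G ↔ A ∈ dec w ∧ dd w A ∈ G := by
  unfold gen1
  rw [mem_sep (by (repeat first | with_reducible exact Int.const _ | with_reducible exact IntF.const _ | with_reducible exact IntF.id | with_reducible exact IntF.fst' | with_reducible exact IntF.snd' | with_reducible assumption | with_reducible apply Int.and | with_reducible apply Int.or | with_reducible apply Int.not | with_reducible apply Int.imp | with_reducible apply Int.iff | with_reducible apply Int.ex | with_reducible apply Int.all | with_reducible apply Int.eq | with_reducible apply Int.ne | with_reducible apply Int.mem | with_reducible apply Int.subset | with_reducible apply IntF.fst | with_reducible apply IntF.snd | with_reducible apply IntF.pair | with_reducible apply IntF.sep | with_reducible_and_instances apply IntF.add | with_reducible apply IntF.inter | with_reducible apply IntF.union | with_reducible apply IntF.app | with_reducible apply IntF.succ | with_reducible apply IntF.dd | with_reducible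 apply IntF.dec | with_reducible ((refine Int.comp ?_ ?_); assumption) | with_reducible ((refine IntF.comp ?_ ?_); assumption) | with_reducible ((refine IntF.comp₂ ?_ ?_ ?_); assumption) | with_reducible ((refine Int.comp₂ ?_ ?_ ?_); assumption)))]

theorem IntF.gen1 {w G : γ → IPow M (IPow M α)} (hw : IntF M w) (hG : IntF M G) :
    IntF M (fun c => gen1 (w c) (G c)) := by
  unfold ZE.gen1
  (repeat first | with_reducible exact Int.const _ | with_reducible exact IntF.const _ | with_reducible exact IntF.id | with_reducible exact IntF.fst' | with_reducible exact IntF.snd' | with_reducible assumption | with_reducible apply Int.and | with_reducible apply Int.or | with_reducible apply Int.not | with_reducible apply Int.imp | with_reducible apply Int.iff | with_reducible apply Int.ex | with_reducible apply Int.all | with_reducible apply Int.eq | with_reducible apply Int.ne | with_reducible apply Int.mem | with_reducible apply Int.subset | with_reducible apply IntF.fst | with_reducible apply IntF.snd | with_reducible apply IntF.pair | with_reducible apply IntF.sep | with_reducible_and_instances apply IntF.add | with_reducible apply IntF.inter |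 with_reducible apply IntF.union | with_reducible apply IntF.app | with_reducible apply IntF.succ | with_reducible apply IntF.dd | with_reducible apply IntF.dec | with_reducible ((refine Int.comp ?_ ?_); assumption) | with_reducible ((refine IntF.comp ?_ ?_); assumption) | with_reducible ((refine IntF.comp₂ ?_ ?_ ?_); assumption) | with_reducible ((refine Int.comp₂ ?_ ?_ ?_); assumption))

/-- The generators of the second extension. -/
noncomputable def gen2 (w : IPow M (IPow M α)) : IPow M (IPow M α) :=
  sep M fun X => ∃ A, A ∈ w ∧ A ∈ dec w ∧ dd w A = X

theorem mem_gen2 {w : IPow M (IPow M α)} {X : IPow M α} :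
    X ∈ gen2 w ↔ ∃ A, A ∈ w ∧ A ∈ dec w ∧ dd w A = X := by
  unfold gen2
  rw [mem_sep (by (repeat first | with_reducible exact Int.const _ | with_reducible exact IntF.const _ | with_reducible exact IntF.id | with_reducible exact IntF.fst' | with_reducible exact IntF.snd' | with_reducible assumption | with_reducible apply Int.and | with_reducible apply Int.or | with_reducible apply Int.not | with_reducible apply Int.imp | with_reducible apply Int.iff | with_reducible apply Int.ex | with_reducible apply Int.all | with_reducible apply Int.eq | with_reducible apply Int.ne | with_reducible apply Int.mem | with_reducible apply Int.subset | with_reducible apply IntF.fst | with_reducible apply IntF.snd | with_reducible apply IntF.pair | with_reducible apply IntF.sep | with_reducible_and_instances apply IntF.add | with_reducible apply IntF.inter | with_reducible apply IntF.union | with_reducible apply IntF.app | with_reducible apply IntF.succ | with_reducible apply IntF.dd | with_reducible apply IntF.dec | with_reducible ((refine Int.comp ?_ ?_); assumption) | with_reducible ((refine IntF.comp ?_ ?_); assumption) | with_reducible ((refine IntF.comp₂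 ?_ ?_ ?_); assumption) | with_reducible ((refine Int.comp₂ ?_ ?_ ?_); assumption)))]

theorem IntF.gen2 {w : γ → IPow M (IPow M α)} (hw : IntF M w) :
    IntF M (fun c => gen2 (w c)) := by
  unfold ZE.gen2
  (repeat first | with_reducible exact Int.const _ | with_reducible exact IntF.const _ | with_reducible exact IntF.id | with_reducible exact IntF.fst' | with_reducible exact IntF.snd' | with_reducible assumption | with_reducible apply Int.and | with_reducible apply Int.or | with_reducible apply Int.not | with_reducible apply Int.imp | with_reducible apply Int.iff | with_reducible apply Int.ex | with_reducible apply Int.all | with_reducible apply Int.eq | with_reducible apply Int.ne | with_reducible apply Int.mem | with_reducible apply Int.subset | with_reducible apply IntF.fst | with_reducible apply IntF.snd | with_reducible apply IntF.pair | with_reducible apply IntF.sep | with_reducible_and_instances apply IntF.add | with_reducible apply IntF.inter | with_reducible apply IntF.union | with_reducible apply IntF.app | with_reducible apply IntF.succ | with_reducible apply IntF.dd | with_reducible apply IntF.dec | with_reducible ((refine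 Int.comp ?_ ?_); assumption) | with_reducible ((refine IntF.comp ?_ ?_); assumption) | with_reducible ((refine IntF.comp₂ ?_ ?_ ?_); assumption) | with_reducible ((refine Int.comp₂ ?_ ?_ ?_); assumption))

theorem gen1_inter {w G : IPow M (IPow M α)} (hw : Fil w) (hG : Fil G) (A B : IPow M α)
    (hA : A ∈ gen1 w G) (hB : B ∈ gen1 w G) : A ∩ B ∈ gen1 w G := by
  rw [mem_gen1] at hA hB ⊢
  refine ⟨dec_inter hw hA.1 hB.1, ?_⟩
  rw [dd_inter hw]
  exact hG.2.2.2 _ _ hA.2 hB.2

theorem gen1_ne {w G : IPow M (IPow M α)} (hw : Fil w) (hG : Fil G) : ∃ A, A ∈ gen1 w G :=
  ⟨iuniv M α, mem_gen1.2 ⟨univ_dec hw, by rw [dd_univ hw]; exact hG.1⟩⟩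

theorem gen2_inter {w : IPow M (IPow M α)} (hw : Fil w) (A B : IPow M α)
    (hA : A ∈ gen2 w) (hB : B ∈ gen2 w) : A ∩ B ∈ gen2 w := by
  rw [mem_gen2] at hA hB ⊢
  obtain ⟨A', h1, h2, rfl⟩ := hA
  obtain ⟨B', h3, h4, rfl⟩ := hB
  exact ⟨A' ∩ B', hw.2.2.2 _ _ h1 h3, dec_inter hw h2 h4, dd_inter hw _ _⟩

theorem gen2_ne {w : IPow M (IPow M α)} (hw : Fil w) : ∃ A, A ∈ gen2 w :=
  ⟨_, mem_gen2.2 ⟨iuniv M α, hw.1, univ_dec hw, rfl⟩⟩

/-- Every filter that contains `F` extends to an ultrafilter. -/
def Ext (F : IPow M (IPow M α)) : Prop :=
  ∀ H : IPow M (IPow M α), Fil H → F ⊆ H → ∃ V, Ult V ∧ H ⊆ V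

/-- The first extension is a filter. -/
theorem fil_ext1 {w G : IPow M (IPow M α)} (hG : Addv G) (hext : Ext G) (hw : Fil w)
    (hGw : G ⊆ w) : Fil (mix G (gen1 w G)) := by
  refine fil_mix hG.1 (gen1_inter hw hG.1) (gen1_ne hw hG.1) fun C A hC hA => ?_
  obtain ⟨v, hv, hwv⟩ := hext w hw hGw
  have h1 : dd v C ∈ G := hG.2 v hv (fun x hx => hwv x (hGw x hx)) C hC
  have h2 : dd v A ∈ G := hG.1.2.2.1 _ _ (mem_gen1.1 hA).2 (dd_mono_left hwv A)
  obtain ⟨n, hn⟩ := hG.1.nonempty (hG.1.2.2.2 _ _ h1 h2)
  rw [mem_inter, mem_dd, mem_dd] at hn
  obtain ⟨m, hm⟩ := hv.1.nonempty (hv.1.2.2.2 _ _ hn.1 hn.2)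
  rw [mem_inter, mem_sh, mem_sh] at hm
  exact ⟨m + n, hm⟩

/-- The first extension is additive. -/
theorem addv_ext1 {w G : IPow M (IPow M α)} (hG : Addv G) (hext : Ext G) (hw : Fil w)
    (hGw : G ⊆ w) : Addv (mix G (gen1 w G)) := by
  have hF := fil_ext1 hG hext hw hGw
  refine ⟨hF, fun y hy hsub X hX => ?_⟩
  have hGy : G ⊆ y := fun x hx => hsub x (subset_mix_left (gen1_ne hw hG.1) x hx)
  have hE : gen1 w G ⊆ y := fun x hx => hsub x (subset_mix_right hG.1 x hx)
  obtain ⟨C, A, hC, hA, h1⟩ := mem_mix.1 hX
  -- the ultrafilter `u`
  have hiE : Int M (fun X : IPow M α => ∃ A, A ∈ y ∧ A ∈ dec w ∧ dd w A = X) := by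
    (repeat first | with_reducible exact Int.const _ | with_reducible exact IntF.const _ | with_reducible exact IntF.id | with_reducible exact IntF.fst' | with_reducible exact IntF.snd' | with_reducible assumption | with_reducible apply Int.and | with_reducible apply Int.or | with_reducible apply Int.not | with_reducible apply Int.imp | with_reducible apply Int.iff | with_reducible apply Int.ex | with_reducible apply Int.all | with_reducible apply Int.eq | with_reducible apply Int.ne | with_reducible apply Int.mem | with_reducible apply Int.subset | with_reducible apply IntF.fst | with_reducible apply IntF.snd | with_reducible apply IntF.pair | with_reducible apply IntF.sep | with_reducible_and_instances apply IntF.add | with_reducible apply IntF.inter | with_reducible apply IntF.union | with_reducible apply IntF.app | with_reducible apply IntF.succ | with_reducible apply IntF.dd | with_reducible apply IntF.dec | with_reducible ((refine Int.comp ?_ ?_); assumption) | with_reducible ((refine IntF.comp ?_ ?_); assumption) | with_reducible ((refine IntF.comp₂ ?_ ?_ ?_); assumption) | with_reducible ((refine Int.comp₂ ?_ ?_ ?_); assumption))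
  have mE : ∀ X : IPow M α, X ∈ sep M (fun X : IPow M α => ∃ A, A ∈ y ∧ A ∈ dec w ∧ dd w A = X) ↔
      ∃ A, A ∈ y ∧ A ∈ dec w ∧ dd w A = X := fun X => mem_sep hiE
  have hfu : Fil (mix G (sep M fun X : IPow M α => ∃ A, A ∈ y ∧ A ∈ dec w ∧ dd w A = X)) := by
    refine fil_mix hG.1 ?_ ?_ ?_
    · intro P Q hP hQ
      rw [mE] at hP hQ ⊢
      obtain ⟨A', h1, h2, rfl⟩ := hP
      obtain ⟨B', h3, h4, rfl⟩ := hQ
      exact ⟨A' ∩ B', hy.1.2.2.2 _ _ h1 h3, dec_inter hw h2 h4, dd_inter hw _ _⟩
    · exact ⟨_, (mE _).2 ⟨iuniv M α, hy.1.1, univ_dec hw, rfl⟩⟩
    · intro C' X' hC' hX'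
      rw [mE] at hX'
      obtain ⟨A', h2, h3, rfl⟩ := hX'
      by_contra h4
      push Not at h4
      have h5 : cpl A' ∈ gen1 w G := by
        rw [mem_gen1]
        refine ⟨dec_cpl h3, ?_⟩
        rw [dd_cpl hw h3]
        exact hG.1.2.2.1 _ _ hC' fun x hx => mem_cpl.2 (h4 x hx)
      exact hy.1.not_both h2 (hE _ h5)
  obtain ⟨v, hv, hvs⟩ := hext _ hfu (subset_mix_left
    ⟨_, (mE _).2 ⟨iuniv M α, hy.1.1, univ_dec hw, rfl⟩⟩)
  have hGv : G ⊆ v := fun x hx => hvs x (subset_mix_left
    ⟨_, (mE _).2 ⟨iuniv M α, hy.1.1, univ_dec hw, rfl⟩⟩ x hx)
  have key : ∀ A', A' ∈ dec w → (A' ∈ y ↔ dd w A' ∈ v) := by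
    intro A' hA'
    constructor
    · intro h2
      exact hvs _ (subset_mix_right hG.1 _ ((mE _).2 ⟨A', h2, hA', rfl⟩))
    · intro h2
      by_contra h3
      have h4 : cpl A' ∈ y := hy.cpl_iff.2 h3
      have h5 : dd w (cpl A') ∈ v :=
        hvs _ (subset_mix_right hG.1 _ ((mE _).2 ⟨cpl A', h4, dec_cpl hA', rfl⟩))
      rw [dd_cpl hw hA'] at h5
      exact hv.1.not_both h2 h5
  have hA1 := mem_gen1.1 hA
  have h2 : dd y A = dd v (dd w A) := by
    refine IPow.ext' fun n => ?_
    rw [mem_dd, mem_dd, key _ (dec_sh hA1.1 n), dd_sh]
  have h3 : dd y A ∈ G := by
    rw [h2]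
    exact hG.2 v hv hGv _ hA1.2
  have h4 : dd y C ∈ G := hG.2 y hy hGy C hC
  have h5 : dd y (C ∩ A) ∈ G := by
    rw [dd_inter hy.1]
    exact hG.1.2.2.2 _ _ h4 h3
  exact hF.2.2.1 _ _ (subset_mix_left (gen1_ne hw hG.1) _ h5) (dd_mono hy.1 h1)

/-- The second extension is a filter. -/
theorem fil_ext2 {w G : IPow M (IPow M α)} (hG : Addv G) (hw : Fil w)
    (hGw : G ⊆ w) (h1 : gen1 w G ⊆ G) : Fil (mix G (gen2 w)) := by
  refine fil_mix hG.1 (gen2_inter hw) (gen2_ne hw) fun C X hC hX => ?_
  rw [mem_gen2] at hX
  obtain ⟨A, h2, h3, rfl⟩ := hX
  by_contra h4
  push Not at h4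
  have h5 : cpl A ∈ gen1 w G := by
    rw [mem_gen1]
    refine ⟨dec_cpl h3, ?_⟩
    rw [dd_cpl hw h3]
    exact hG.1.2.2.1 _ _ hC fun x hx => mem_cpl.2 (h4 x hx)
  exact hw.not_both h2 (hGw _ (h1 _ h5))

/-- The second extension is additive. -/
theorem addv_ext2 {w G : IPow M (IPow M α)} (hG : Addv G) (hw : Fil w)
    (hGw : G ⊆ w) (h1 : gen1 w G ⊆ G) : Addv (mix G (gen2 w)) := by
  have hF := fil_ext2 hG hw hGw h1
  refine ⟨hF, fun y hy hsub X hX => ?_⟩
  have hGy : G ⊆ y := fun x hx => hsub x (subset_mix_left (gen2_ne hw) x hx)
  have hE : gen2 w ⊆ y := fun x hx => hsub x (subset_mix_right hG.1 x hx)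
  obtain ⟨C, X', hC, hX', h2⟩ := mem_mix.1 hX
  have hX'' := hX'
  rw [mem_gen2] at hX'
  obtain ⟨A, h3, h4, rfl⟩ := hX'
  have key : ∀ A', A' ∈ dec w → (dd w A' ∈ y ↔ A' ∈ w) := by
    intro A' hA'
    constructor
    · intro h5
      by_contra h6
      have h7 : cpl A' ∈ w := ((mem_dec.1 hA').1).resolve_left h6
      have h8 : dd w (cpl A') ∈ y := hE _ (mem_gen2.2 ⟨_, h7, dec_cpl hA', rfl⟩)
      rw [dd_cpl hw hA'] at h8
      exact hy.1.not_both h5 h8
    · intro h5
      exact hE _ (mem_gen2.2 ⟨_, h5, hA', rfl⟩)
  have h5 : dd y (dd w A) = dd w A := by
    refine IPow.ext' fun n => ?_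
    rw [mem_dd, ← dd_sh, key _ (dec_sh h4 n), mem_dd]
  have h6 : dd y C ∈ G := hG.2 y hy hGy C hC
  refine mem_mix.2 ⟨dd y C, dd w A, h6, hX'', fun x hx => ?_⟩
  refine dd_mono hy.1 h2 x ?_
  rw [dd_inter hy.1, h5]
  exact hx

/-! ### The canonical filter -/

/-- One step. -/
noncomputable def stp (T w : IPow M (IPow M α)) : IPow M (IPow M α) := mix w T

section canon

variable (T : INat M → IPow M α)

open Classical in
/-- The stages. -/
noncomputable def stg (G : IPow M (IPow M α)) (n : INat M) : IPow M (IPow M α) :=
  irec G (fun n w => if cpl (T n) ∈ w then w else mix w {T n}) n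

variable {T}

open Classical in
theorem int_stp (hT : IntF M T) : IntF M (fun q : INat M × IPow M (IPow M α) =>
    if cpl (T q.1) ∈ q.2 then q.2 else mix q.2 {T q.1}) := by
  refine IntF.ite ?_ ?_ ?_
  · (repeat first | with_reducible exact Int.const _ | with_reducible exact IntF.const _ | with_reducible exact IntF.id | with_reducible exact IntF.fst' | with_reducible exact IntF.snd' | with_reducible assumption | with_reducible apply Int.and | with_reducible apply Int.or | with_reducible apply Int.not | with_reducible apply Int.imp | with_reducible apply Int.iff | with_reducible apply Int.ex | with_reducible apply Int.all | with_reducible apply Int.eq | with_reducible apply Int.ne | with_reducible apply Int.mem | with_reducible apply Int.subset | with_reducible apply IntF.fst | with_reducible apply IntF.snd | with_reducible apply IntF.pair | with_reducible apply IntF.sep | with_reducible_and_instances apply IntF.add | with_reducible apply IntF.inter | with_reducible apply IntF.union | with_reducible apply IntF.app | with_reducible apply IntF.succ | with_reducible apply IntF.cpl | with_reducible ((refine Int.comp ?_ ?_); assumption) | with_reducible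 ((refine IntF.comp ?_ ?_); assumption) | with_reducible ((refine IntF.comp₂ ?_ ?_ ?_); assumption) | with_reducible ((refine Int.comp₂ ?_ ?_ ?_); assumption))
  · (repeat first | with_reducible exact Int.const _ | with_reducible exact IntF.const _ | with_reducible exact IntF.id | with_reducible exact IntF.fst' | with_reducible exact IntF.snd' | with_reducible assumption | with_reducible apply Int.and | with_reducible apply Int.or | with_reducible apply Int.not | with_reducible apply Int.imp | with_reducible apply Int.iff | with_reducible apply Int.ex | with_reducible apply Int.all | with_reducible apply Int.eq | with_reducible apply Int.ne | with_reducible apply Int.mem | with_reducible apply Int.subset | with_reducible apply IntF.fst | with_reducible apply IntF.snd | with_reducible apply IntF.pair | with_reducible apply IntF.sep | with_reducible_and_instances apply IntF.add | with_reducible apply IntF.inter | with_reducible apply IntF.union | with_reducible apply IntF.app | with_reducible apply IntF.succ | with_reducible ((refine Int.comp ?_ ?_); assumption) | with_reducible ((refine IntF.comp ?_ ?_); assumption) | with_reducible ((refine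 IntF.comp₂ ?_ ?_ ?_); assumption) | with_reducible ((refine Int.comp₂ ?_ ?_ ?_); assumption))
  · (repeat first | with_reducible exact Int.const _ | with_reducible exact IntF.const _ | with_reducible exact IntF.id | with_reducible exact IntF.fst' | with_reducible exact IntF.snd' | with_reducible assumption | with_reducible apply Int.and | with_reducible apply Int.or | with_reducible apply Int.not | with_reducible apply Int.imp | with_reducible apply Int.iff | with_reducible apply Int.ex | with_reducible apply Int.all | with_reducible apply Int.eq | with_reducible apply Int.ne | with_reducible apply Int.mem | with_reducible apply Int.subset | with_reducible apply IntF.fst | with_reducible apply IntF.snd | with_reducible apply IntF.pair | with_reducible apply IntF.sep | with_reducible_and_instances apply IntF.add | with_reducible apply IntF.inter | with_reducible apply IntF.union | with_reducible apply IntF.app | with_reducible apply IntF.succ | with_reducible apply IntF.mix | with_reducible apply IntF.singleton | with_reducible ((refine Int.comp ?_ ?_); assumption) | with_reducible ((refine IntF.comp ?_ ?_); assumption) | with_reducible ((refine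 IntF.comp₂ ?_ ?_ ?_); assumption) | with_reducible ((refine Int.comp₂ ?_ ?_ ?_); assumption))

theorem IntF.stg (hT : IntF M T) {G : γ → IPow M (IPow M α)} {n : γ → INat M} (hG : IntF M G)
    (hn : IntF M n) : IntF M (fun c => stg T (G c) (n c)) := by
  unfold ZE.stg
  refine IntF.irec hG ?_ hn
  classical
  exact IntF.comp (g := fun q : INat M × IPow M (IPow M α) =>
    if ZE.cpl (T q.1) ∈ q.2 then q.2 else ZE.mix q.2 {T q.1})
    (f := fun q : (γ × INat M) × IPow M (IPow M α) => (q.1.2, q.2)) (int_stp hT) (by (repeat first | with_reducible exact Int.const _ | with_reducible exact IntF.const _ | with_reducible exact IntF.id | with_reducible exact IntF.fst' | with_reducible exact IntF.snd' | with_reducible assumption | with_reducible apply Int.and | with_reducible apply Int.or | with_reducible apply Int.not | with_reducible apply Int.imp | with_reducible apply Int.iff | with_reducible apply Int.ex | with_reducible apply Int.all | with_reducible apply Int.eq | with_reducible apply Int.ne | with_reducible apply Int.mem | with_reducible apply Int.subset | with_reducible apply IntF.fst | with_reducible apply IntF.snd | with_reducible apply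 IntF.pair | with_reducible apply IntF.sep | with_reducible_and_instances apply IntF.add | with_reducible apply IntF.inter | with_reducible apply IntF.union | with_reducible apply IntF.app | with_reducible apply IntF.succ | with_reducible ((refine Int.comp ?_ ?_); assumption) | with_reducible ((refine IntF.comp ?_ ?_); assumption) | with_reducible ((refine IntF.comp₂ ?_ ?_ ?_); assumption) | with_reducible ((refine Int.comp₂ ?_ ?_ ?_); assumption)))

theorem stg_zero (hT : IntF M T) (G : IPow M (IPow M α)) : stg T G 0 = G :=
  irec_zero (int_stp hT)

open Classical in
theorem stg_succ (hT : IntF M T) (G : IPow M (IPow M α)) (n : INat M) :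
    stg T G n.succ = if cpl (T n) ∈ stg T G n then stg T G n else mix (stg T G n) {T n} :=
  irec_succ (int_stp hT) n

theorem fil_stg (hT : IntF M T) {G : IPow M (IPow M α)} (hG : Fil G) (n : INat M) :
    Fil (stg T G n) := by
  refine INat.ind (p := fun n => Fil (stg T G n)) (by (repeat first | with_reducible exact Int.const _ | with_reducible exact IntF.const _ | with_reducible exact IntF.id | with_reducible exact IntF.fst' | with_reducible exact IntF.snd' | with_reducible assumption | with_reducible apply Int.and | with_reducible apply Int.or | with_reducible apply Int.not | with_reducible apply Int.imp | with_reducible apply Int.iff | with_reducible apply Int.ex | with_reducible apply Int.all | with_reducible apply Int.eq | with_reducible apply Int.ne | with_reducible apply Int.mem | with_reducible apply Int.subset | with_reducible apply IntF.fst | with_reducible apply IntF.snd | with_reducible apply IntF.pair | with_reducible apply IntF.sep | with_reducible_and_instances apply IntF.add | with_reducible apply IntF.inter | with_reducible apply IntF.union | with_reducible apply IntF.app | with_reducible apply IntF.succ | with_reducible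 apply Int.fil | with_reducible apply IntF.stg hT | with_reducible ((refine Int.comp ?_ ?_); assumption) | with_reducible ((refine IntF.comp ?_ ?_); assumption) | with_reducible ((refine IntF.comp₂ ?_ ?_ ?_); assumption) | with_reducible ((refine Int.comp₂ ?_ ?_ ?_); assumption))) ?_ ?_ n
  · rw [stg_zero hT]
    exact hG
  · intro n ih
    rw [stg_succ hT]
    by_cases h : cpl (T n) ∈ stg T G n
    · rw [if_pos h]
      exact ih
    · rw [if_neg h]
      refine fil_mix ih ?_ ⟨T n, mem_singleton.2 rfl⟩ ?_
      · intro A B hA hB
        rw [mem_singleton] at hA hB ⊢
        subst hA hB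
        exact IPow.ext' fun x => by simp
      · intro C A hC hA
        rw [mem_singleton] at hA
        subst hA
        by_contra h1
        push Not at h1
        exact h (ih.2.2.1 _ _ hC fun x hx => mem_cpl.2 (h1 x hx))

theorem stg_le_succ (hT : IntF M T) (G : IPow M (IPow M α)) (n : INat M) :
    stg T G n ⊆ stg T G n.succ := by
  rw [stg_succ hT]
  by_cases h : cpl (T n) ∈ stg T G n
  · rw [if_pos h]
    exact fun _ => id
  · rw [if_neg h]
    exact subset_mix_left ⟨T n, mem_singleton.2 rfl⟩

theorem stg_mono (hT : IntF M T) (G : IPow M (IPow M α)) {m n : INat M} (h : m ≤ n) :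
    stg T G m ⊆ stg T G n := by
  revert h
  refine INat.ind (p := fun n => m ≤ n → stg T G m ⊆ stg T G n)
    (by (repeat first | with_reducible exact Int.const _ | with_reducible exact IntF.const _ | with_reducible exact IntF.id | with_reducible exact IntF.fst' | with_reducible exact IntF.snd' | with_reducible assumption | with_reducible apply Int.and | with_reducible apply Int.or | with_reducible apply Int.not | with_reducible apply Int.imp | with_reducible apply Int.iff | with_reducible apply Int.ex | with_reducible apply Int.all | with_reducible apply Int.eq | with_reducible apply Int.ne | with_reducible apply Int.mem | with_reducible apply Int.subset | with_reducible apply IntF.fst | with_reducible apply IntF.snd | with_reducible apply IntF.pair | with_reducible apply IntF.sep | with_reducible_and_instances apply IntF.add | with_reducible apply IntF.inter | with_reducible apply IntF.union | with_reducible apply IntF.app | with_reducible apply IntF.succ | with_reducible apply Int.leN | with_reducible apply IntF.stg hT | with_reducible ((refine Int.comp ?_ ?_); assumption) | with_reducible ((refine IntF.comp ?_ ?_); assumption) | with_reducible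 ((refine IntF.comp₂ ?_ ?_ ?_); assumption) | with_reducible ((refine Int.comp₂ ?_ ?_ ?_); assumption))) ?_ ?_ n
  · intro h
    rcases INat.le_iff'.1 h with h1 | h1
    · exact absurd h1 INat.not_lt_zero
    · rw [h1]
      exact fun _ => id
  · intro n ih h
    rcases INat.le_iff'.1 h with h1 | h1
    · exact fun x hx => stg_le_succ hT G n x (ih (INat.lt_succ_iff.1 h1) x hx)
    · rw [h1]
      exact fun _ => id

variable (T) in
/-- The union of the stages. -/
noncomputable def can (G : IPow M (IPow M α)) : IPow M (IPow M α) :=
  sep M fun X => ∃ n, X ∈ stg T G n

theorem mem_can (hT : IntF M T) {G : IPow M (IPow M α)} {X : IPow M α} :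
    X ∈ can T G ↔ ∃ n, X ∈ stg T G n := by
  unfold can
  rw [mem_sep (by (repeat first | with_reducible exact Int.const _ | with_reducible exact IntF.const _ | with_reducible exact IntF.id | with_reducible exact IntF.fst' | with_reducible exact IntF.snd' | with_reducible assumption | with_reducible apply Int.and | with_reducible apply Int.or | with_reducible apply Int.not | with_reducible apply Int.imp | with_reducible apply Int.iff | with_reducible apply Int.ex | with_reducible apply Int.all | with_reducible apply Int.eq | with_reducible apply Int.ne | with_reducible apply Int.mem | with_reducible apply Int.subset | with_reducible apply IntF.fst | with_reducible apply IntF.snd | with_reducible apply IntF.pair | with_reducible apply IntF.sep | with_reducible_and_instances apply IntF.add | with_reducible apply IntF.inter | with_reducible apply IntF.union | with_reducible apply IntF.app | with_reducible apply IntF.succ | with_reducible apply IntF.stg hT | with_reducible ((refine Int.comp ?_ ?_); assumption) | with_reducible ((refine IntF.comp ?_ ?_); assumption) | with_reducible ((refine IntF.comp₂ ?_ ?_ ?_); assumption) | with_reducible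 ((refine Int.comp₂ ?_ ?_ ?_); assumption)))]

theorem IntF.can (hT : IntF M T) {G : γ → IPow M (IPow M α)} (hG : IntF M G) :
    IntF M (fun c => can T (G c)) := by
  unfold ZE.can
  (repeat first | with_reducible exact Int.const _ | with_reducible exact IntF.const _ | with_reducible exact IntF.id | with_reducible exact IntF.fst' | with_reducible exact IntF.snd' | with_reducible assumption | with_reducible apply Int.and | with_reducible apply Int.or | with_reducible apply Int.not | with_reducible apply Int.imp | with_reducible apply Int.iff | with_reducible apply Int.ex | with_reducible apply Int.all | with_reducible apply Int.eq | with_reducible apply Int.ne | with_reducible apply Int.mem | with_reducible apply Int.subset | with_reducible apply IntF.fst | with_reducible apply IntF.snd | with_reducible apply IntF.pair | with_reducible apply IntF.sep | with_reducible_and_instances apply IntF.add | with_reducible apply IntF.inter | with_reducible apply IntF.union | with_reducible apply IntF.app | with_reducible apply IntF.succ | with_reducible apply IntF.stg hT | with_reducible ((refine Int.comp ?_ ?_); assumption) | with_reducible ((refine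 IntF.comp ?_ ?_); assumption) | with_reducible ((refine IntF.comp₂ ?_ ?_ ?_); assumption) | with_reducible ((refine Int.comp₂ ?_ ?_ ?_); assumption))

theorem subset_can (hT : IntF M T) (G : IPow M (IPow M α)) : G ⊆ can T G := fun X hX =>
  (mem_can hT).2 ⟨0, by rw [stg_zero hT]; exact hX⟩

theorem fil_can (hT : IntF M T) {G : IPow M (IPow M α)} (hG : Fil G) : Fil (can T G) := by
  refine ⟨?_, ?_, ?_, ?_⟩
  · exact (mem_can hT).2 ⟨0, (fil_stg hT hG 0).1⟩
  · intro h
    obtain ⟨n, hn⟩ := (mem_can hT).1 h
    exact (fil_stg hT hG n).2.1 hn
  · intro A B hA h
    obtain ⟨n, hn⟩ := (mem_can hT).1 hA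
    exact (mem_can hT).2 ⟨n, (fil_stg hT hG n).2.2.1 _ _ hn h⟩
  · intro A B hA hB
    obtain ⟨m, hm⟩ := (mem_can hT).1 hA
    obtain ⟨n, hn⟩ := (mem_can hT).1 hB
    rcases le_total m n with h | h
    · exact (mem_can hT).2 ⟨n, (fil_stg hT hG n).2.2.2 _ _ (stg_mono hT G h _ hm) hn⟩
    · exact (mem_can hT).2 ⟨m, (fil_stg hT hG m).2.2.2 _ _ hm (stg_mono hT G h _ hn)⟩

theorem can_decides (hT : IntF M T) {G : IPow M (IPow M α)} (hG : Fil G) (n : INat M) :
    T n ∈ can T G ∨ cpl (T n) ∈ can T G := by
  by_cases h : cpl (T n) ∈ stg T G n
  · exact Or.inr ((mem_can hT).2 ⟨n, h⟩)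
  · refine Or.inl ((mem_can hT).2 ⟨n.succ, ?_⟩)
    rw [stg_succ hT, if_neg h]
    exact subset_mix_right (fil_stg hT hG n) _ (mem_singleton.2 rfl)

end canon

/-! ### The extension theorem -/

section main

variable (T : INat M → IPow M α)

open Classical in
/-- The extension operator. -/
noncomputable def phi (G : IPow M (IPow M α)) : IPow M (IPow M α) :=
  if mix G (gen1 (can T G) G) = G then mix G (gen2 (can T G)) else mix G (gen1 (can T G) G)

variable {T}

theorem IntF.phi (hT : IntF M T) {G : γ → IPow M (IPow M α)} (hG : IntF M G) :
    IntF M (fun c => phi T (G c)) := by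
  have h : IntF M (fun G : IPow M (IPow M α) => ZE.phi T G) := by
    unfold ZE.phi
    refine IntF.ite ?_ ?_ ?_
    · (repeat first | with_reducible exact Int.const _ | with_reducible exact IntF.const _ | with_reducible exact IntF.id | with_reducible exact IntF.fst' | with_reducible exact IntF.snd' | with_reducible assumption | with_reducible apply Int.and | with_reducible apply Int.or | with_reducible apply Int.not | with_reducible apply Int.imp | with_reducible apply Int.iff | with_reducible apply Int.ex | with_reducible apply Int.all | with_reducible apply Int.eq | with_reducible apply Int.ne | with_reducible apply Int.mem | with_reducible apply Int.subset | with_reducible apply IntF.fst | with_reducible apply IntF.snd | with_reducible apply IntF.pair | with_reducible apply IntF.sep | with_reducible_and_instances apply IntF.add | with_reducible apply IntF.inter | with_reducible apply IntF.union | with_reducible apply IntF.app | with_reducible apply IntF.succ | with_reducible apply IntF.mix | with_reducible apply IntF.gen1 | with_reducible apply IntF.gen2 | with_reducible apply IntF.can hT | with_reducible ((refine Int.comp ?_ ?_); assumption)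 | with_reducible ((refine IntF.comp ?_ ?_); assumption) | with_reducible ((refine IntF.comp₂ ?_ ?_ ?_); assumption) | with_reducible ((refine Int.comp₂ ?_ ?_ ?_); assumption))
    · (repeat first | with_reducible exact Int.const _ | with_reducible exact IntF.const _ | with_reducible exact IntF.id | with_reducible exact IntF.fst' | with_reducible exact IntF.snd' | with_reducible assumption | with_reducible apply Int.and | with_reducible apply Int.or | with_reducible apply Int.not | with_reducible apply Int.imp | with_reducible apply Int.iff | with_reducible apply Int.ex | with_reducible apply Int.all | with_reducible apply Int.eq | with_reducible apply Int.ne | with_reducible apply Int.mem | with_reducible apply Int.subset | with_reducible apply IntF.fst | with_reducible apply IntF.snd | with_reducible apply IntF.pair | with_reducible apply IntF.sep | with_reducible_and_instances apply IntF.add | with_reducible apply IntF.inter | with_reducible apply IntF.union | with_reducible apply IntF.app | with_reducible apply IntF.succ | with_reducible apply IntF.mix | with_reducible apply IntF.gen1 | with_reducible apply IntF.gen2 | with_reducible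 apply IntF.can hT | with_reducible ((refine Int.comp ?_ ?_); assumption) | with_reducible ((refine IntF.comp ?_ ?_); assumption) | with_reducible ((refine IntF.comp₂ ?_ ?_ ?_); assumption) | with_reducible ((refine Int.comp₂ ?_ ?_ ?_); assumption))
    · (repeat first | with_reducible exact Int.const _ | with_reducible exact IntF.const _ | with_reducible exact IntF.id | with_reducible exact IntF.fst' | with_reducible exact IntF.snd' | with_reducible assumption | with_reducible apply Int.and | with_reducible apply Int.or | with_reducible apply Int.not | with_reducible apply Int.imp | with_reducible apply Int.iff | with_reducible apply Int.ex | with_reducible apply Int.all | with_reducible apply Int.eq | with_reducible apply Int.ne | with_reducible apply Int.mem | with_reducible apply Int.subset | with_reducible apply IntF.fst | with_reducible apply IntF.snd | with_reducible apply IntF.pair | with_reducible apply IntF.sep | with_reducible_and_instances apply IntF.add | with_reducible apply IntF.inter | with_reducible apply IntF.union | with_reducible apply IntF.app | with_reducible apply IntF.succ | with_reducible apply IntF.mix | with_reducible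 apply IntF.gen1 | with_reducible apply IntF.gen2 | with_reducible apply IntF.can hT | with_reducible ((refine Int.comp ?_ ?_); assumption) | with_reducible ((refine IntF.comp ?_ ?_); assumption) | with_reducible ((refine IntF.comp₂ ?_ ?_ ?_); assumption) | with_reducible ((refine Int.comp₂ ?_ ?_ ?_); assumption))
  exact IntF.comp h hG

/-- A filter that contains `F` and decides `B` and is not contained in any ultrafilter, or all
filters that contain `F` are contained in ultrafilters. -/
theorem ext_of {F : IPow M (IPow M α)} {B : IPow M α}
    (h : ∀ H : IPow M (IPow M α), Fil H → F ⊆ H → (B ∈ H ∨ cpl B ∈ H) →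
      ∃ V, Ult V ∧ H ⊆ V) : Ext F := by
  intro H hH hFH
  have h0 : ∀ A : IPow M α, (∀ C, C ∈ H → ∃ x, x ∈ C ∧ x ∈ A) → Fil (mix H {A}) := by
    intro A hA
    refine fil_mix hH ?_ ⟨A, mem_singleton.2 rfl⟩ ?_
    · intro P Q hP hQ
      rw [mem_singleton] at hP hQ ⊢
      subst hP hQ
      exact IPow.ext' fun x => by simp
    · intro C P hC hP
      rw [mem_singleton] at hP
      subst hP
      exact hA C hC
  have h1 : ∀ A : IPow M α, (A = B ∨ A = cpl B) → (∀ C, C ∈ H → ∃ x, x ∈ C ∧ x ∈ A) →
      ∃ V, Ult V ∧ H ⊆ V := by
    intro A hA hC
    obtain ⟨V, hV, hVs⟩ := h (mix H {A}) (h0 A hC)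
      (fun x hx => subset_mix_left ⟨A, mem_singleton.2 rfl⟩ x (hFH x hx)) (by
        have h2 := subset_mix_right (E := {A}) hH A (mem_singleton.2 rfl)
        rcases hA with rfl | rfl
        · exact Or.inl h2
        · exact Or.inr h2)
    exact ⟨V, hV, fun x hx => hVs x (subset_mix_left ⟨A, mem_singleton.2 rfl⟩ x hx)⟩
  by_cases h2 : ∀ C, C ∈ H → ∃ x, x ∈ C ∧ x ∈ B
  · exact h1 B (Or.inl rfl) h2
  · refine h1 (cpl B) (Or.inr rfl) fun C hC => ?_
    push Not at h2
    obtain ⟨C', hC', h3⟩ := h2
    obtain ⟨x, hx⟩ := hH.nonempty (hH.2.2.2 _ _ hC hC')
    rw [mem_inter] at hx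
    exact ⟨x, hx.1, mem_cpl.2 (h3 x hx.2)⟩

theorem Ext.mono {F G : IPow M (IPow M α)} (h : Ext F) (hFG : F ⊆ G) : Ext G :=
  fun H hH hGH => h H hH fun x hx => hGH x (hFG x hx)

/-- An additive filter on an internally countable semigroup extends to an additive filter that
decides a given set. -/
theorem core {e : INat M → α} (he : IntF M e) (hes : ∀ x, ∃ n, e n = x)
    {F : IPow M (IPow M α)} (hF : Addv F) (B : IPow M α) :
    ∃ G, Addv G ∧ F ⊆ G ∧ (B ∈ G ∨ cpl B ∈ G) := by
  classical
  by_contra hcon
  push Not at hcon
  have hext : Ext F := by
    refine ext_of (B := B) fun H hH hFH hB => ?_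
    by_contra h1
    push Not at h1
    have h2 : Addv H := ⟨hH, fun V hV hHV => absurd hHV (h1 V hV)⟩
    have h3 := hcon H h2 hFH
    rcases hB with hB | hB
    · exact h3.1 hB
    · exact h3.2 hB
  -- the enumeration of the shifts
  let T : INat M → IPow M α := fun n => if n = 0 then B else sh B (e (the (fun m => m.succ = n) 0))
  have hthe : IntF M (fun n : INat M => the (fun m : INat M => m.succ = n) 0) :=
    IntF.the (by (repeat first | with_reducible exact Int.const _ | with_reducible exact IntF.const _ | with_reducible exact IntF.id | with_reducible exact IntF.fst' | with_reducible exact IntF.snd' | with_reducible assumption | with_reducible apply Int.and | with_reducible apply Int.or | with_reducible apply Int.not | with_reducible apply Int.imp | with_reducible apply Int.iff | with_reducible apply Int.ex | with_reducible apply Int.all | with_reducible apply Int.eq | with_reducible apply Int.ne | with_reducible apply Int.mem | with_reducible apply Int.subset | with_reducible apply IntF.fst | with_reducible apply IntF.snd | with_reducible apply IntF.pair | with_reducible apply IntF.sep | with_reducible_and_instances apply IntF.add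 | with_reducible apply IntF.inter | with_reducible apply IntF.union | with_reducible apply IntF.app | with_reducible apply IntF.succ | with_reducible ((refine Int.comp ?_ ?_); assumption) | with_reducible ((refine IntF.comp ?_ ?_); assumption) | with_reducible ((refine IntF.comp₂ ?_ ?_ ?_); assumption) | with_reducible ((refine Int.comp₂ ?_ ?_ ?_); assumption))) (by (repeat first | with_reducible exact Int.const _ | with_reducible exact IntF.const _ | with_reducible exact IntF.id | with_reducible exact IntF.fst' | with_reducible exact IntF.snd' | with_reducible assumption | with_reducible apply Int.and | with_reducible apply Int.or | with_reducible apply Int.not | with_reducible apply Int.imp | with_reducible apply Int.iff | with_reducible apply Int.ex | with_reducible apply Int.all | with_reducible apply Int.eq | with_reducible apply Int.ne | with_reducible apply Int.mem | with_reducible apply Int.subset | with_reducible apply IntF.fst | with_reducible apply IntF.snd | with_reducible apply IntF.pair | with_reducible apply IntF.sep | with_reducible_and_instances apply IntF.add | with_reducible apply IntF.inter | with_reducible apply IntF.union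 | with_reducible apply IntF.app | with_reducible apply IntF.succ | with_reducible ((refine Int.comp ?_ ?_); assumption) | with_reducible ((refine IntF.comp ?_ ?_); assumption) | with_reducible ((refine IntF.comp₂ ?_ ?_ ?_); assumption) | with_reducible ((refine Int.comp₂ ?_ ?_ ?_); assumption)))
  have hT : IntF M T := by
    refine IntF.ite ?_ ?_ ?_
    · (repeat first | with_reducible exact Int.const _ | with_reducible exact IntF.const _ | with_reducible exact IntF.id | with_reducible exact IntF.fst' | with_reducible exact IntF.snd' | with_reducible assumption | with_reducible apply Int.and | with_reducible apply Int.or | with_reducible apply Int.not | with_reducible apply Int.imp | with_reducible apply Int.iff | with_reducible apply Int.ex | with_reducible apply Int.all | with_reducible apply Int.eq | with_reducible apply Int.ne | with_reducible apply Int.mem | with_reducible apply Int.subset | with_reducible apply IntF.fst | with_reducible apply IntF.snd | with_reducible apply IntF.pair | with_reducible apply IntF.sep | with_reducible_and_instances apply IntF.add | with_reducible apply IntF.inter | with_reducible apply IntF.union | with_reducible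 apply IntF.app | with_reducible apply IntF.succ | with_reducible ((refine Int.comp ?_ ?_); assumption) | with_reducible ((refine IntF.comp ?_ ?_); assumption) | with_reducible ((refine IntF.comp₂ ?_ ?_ ?_); assumption) | with_reducible ((refine Int.comp₂ ?_ ?_ ?_); assumption))
    · (repeat first | with_reducible exact Int.const _ | with_reducible exact IntF.const _ | with_reducible exact IntF.id | with_reducible exact IntF.fst' | with_reducible exact IntF.snd' | with_reducible assumption | with_reducible apply Int.and | with_reducible apply Int.or | with_reducible apply Int.not | with_reducible apply Int.imp | with_reducible apply Int.iff | with_reducible apply Int.ex | with_reducible apply Int.all | with_reducible apply Int.eq | with_reducible apply Int.ne | with_reducible apply Int.mem | with_reducible apply Int.subset | with_reducible apply IntF.fst | with_reducible apply IntF.snd | with_reducible apply IntF.pair | with_reducible apply IntF.sep | with_reducible_and_instances apply IntF.add | with_reducible apply IntF.inter | with_reducible apply IntF.union | with_reducible apply IntF.app | with_reducible apply IntF.succ | with_reducible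 ((refine Int.comp ?_ ?_); assumption) | with_reducible ((refine IntF.comp ?_ ?_); assumption) | with_reducible ((refine IntF.comp₂ ?_ ?_ ?_); assumption) | with_reducible ((refine Int.comp₂ ?_ ?_ ?_); assumption))
    · refine IntF.sh (IntF.const B) ?_
      exact IntF.comp he hthe
  have hT0 : T 0 = B := if_pos rfl
  have hTs : ∀ n, T n.succ = sh B (e n) := by
    intro n
    have h1 : the (fun m : INat M => m.succ = n.succ) 0 = n :=
      the_eq ⟨n, rfl, fun m hm => INat.succ_inj hm⟩ rfl
    change (if n.succ = 0 then B else sh B (e (the (fun m => m.succ = n.succ) 0))) = _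
    rw [if_neg (INat.succ_ne_zero n), h1]
  have hdec : ∀ G : IPow M (IPow M α), Fil G → B ∈ dec (can T G) := by
    intro G hG
    rw [mem_dec]
    refine ⟨?_, fun n => ?_⟩
    · have h1 := can_decides hT hG 0
      rw [hT0] at h1
      exact h1
    · obtain ⟨m, rfl⟩ := hes n
      have h1 := can_decides hT hG m.succ
      rw [hTs] at h1
      exact h1
  -- the operator
  have hphi : ∀ G : IPow M (IPow M α), Addv G → F ⊆ G →
      Addv (phi T G) ∧ G ⊆ phi T G ∧ phi T G ≠ G := by
    intro G hG hFG
    have hw := fil_can hT hG.1
    have hGw := subset_can hT G
    have hx : Ext G := hext.mono hFG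
    by_cases h1 : mix G (gen1 (can T G) G) = G
    · have h2 : phi T G = mix G (gen2 (can T G)) := if_pos h1
      have h3 : gen1 (can T G) G ⊆ G := by
        intro A hA
        have h4 := subset_mix_right (E := gen1 (can T G) G) hG.1 A hA
        rwa [h1] at h4
      rw [h2]
      refine ⟨addv_ext2 hG hw hGw h3, subset_mix_left (gen2_ne hw), fun h4 => ?_⟩
      have h5 : ∀ A, A ∈ can T G → A ∈ dec (can T G) → A ∈ G := by
        intro A hA hA'
        refine h3 _ (mem_gen1.2 ⟨hA', ?_⟩)
        have h6 := subset_mix_right (E := gen2 (can T G)) hG.1 _
          (mem_gen2.2 ⟨A, hA, hA', rfl⟩)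
        rwa [h4] at h6
      have h6 := hcon G hG hFG
      rcases (mem_dec.1 (hdec G hG.1)).1 with h7 | h7
      · exact h6.1 (h5 _ h7 (hdec G hG.1))
      · exact h6.2 (h5 _ h7 (dec_cpl (hdec G hG.1)))
    · have h2 : phi T G = mix G (gen1 (can T G) G) := if_neg h1
      rw [h2]
      exact ⟨addv_ext1 hG hx hw hGw, subset_mix_left (gen1_ne hw hG.1), h1⟩
  -- the fixed point
  obtain ⟨S, ⟨h1, h2⟩, h3⟩ := bourbaki_witt (F := fun S => cpl (phi T (cpl S)))
    (by (repeat first | with_reducible exact Int.const _ | with_reducible exact IntF.const _ | with_reducible exact IntF.id | with_reducible exact IntF.fst' | with_reducible exact IntF.snd' | with_reducible assumption | with_reducible apply Int.and | with_reducible apply Int.or | with_reducible apply Int.not | with_reducible apply Int.imp | with_reducible apply Int.iff | with_reducible apply Int.ex | with_reducible apply Int.all | with_reducible apply Int.eq | with_reducible apply Int.ne | with_reducible apply Int.mem | with_reducible apply Int.subset | with_reducible apply IntF.fst | with_reducible apply IntF.snd | with_reducible apply IntF.pair | with_reducible apply IntF.sep | with_reducible_and_instances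 apply IntF.add | with_reducible apply IntF.inter | with_reducible apply IntF.union | with_reducible apply IntF.app | with_reducible apply IntF.succ | with_reducible apply IntF.cpl | with_reducible apply IntF.phi hT | with_reducible ((refine Int.comp ?_ ?_); assumption) | with_reducible ((refine IntF.comp ?_ ?_); assumption) | with_reducible ((refine IntF.comp₂ ?_ ?_ ?_); assumption) | with_reducible ((refine Int.comp₂ ?_ ?_ ?_); assumption))) (Q := fun S => Addv (cpl S) ∧ F ⊆ cpl S)
    (by (repeat first | with_reducible exact Int.const _ | with_reducible exact IntF.const _ | with_reducible exact IntF.id | with_reducible exact IntF.fst' | with_reducible exact IntF.snd' | with_reducible assumption | with_reducible apply Int.and | with_reducible apply Int.or | with_reducible apply Int.not | with_reducible apply Int.imp | with_reducible apply Int.iff | with_reducible apply Int.ex | with_reducible apply Int.all | with_reducible apply Int.eq | with_reducible apply Int.ne | with_reducible apply Int.mem | with_reducible apply Int.subset | with_reducible apply IntF.fst | with_reducible apply IntF.snd | with_reducible apply IntF.pair | with_reducible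 apply IntF.sep | with_reducible_and_instances apply IntF.add | with_reducible apply IntF.inter | with_reducible apply IntF.union | with_reducible apply IntF.app | with_reducible apply IntF.succ | with_reducible apply IntF.cpl | with_reducible apply Int.addv | with_reducible ((refine Int.comp ?_ ?_); assumption) | with_reducible ((refine IntF.comp ?_ ?_); assumption) | with_reducible ((refine IntF.comp₂ ?_ ?_ ?_); assumption) | with_reducible ((refine Int.comp₂ ?_ ?_ ?_); assumption))) (top := cpl F)
    (by
      rw [cpl_cpl]
      exact ⟨hF, fun _ => id⟩)
    (by
      rintro S ⟨h1, h2⟩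
      obtain ⟨h3, h4, h5⟩ := hphi _ h1 h2
      rw [cpl_cpl]
      refine ⟨⟨h3, fun x hx => h4 x (h2 x hx)⟩, ?_⟩
      have h6 := cpl_subset h4
      rwa [cpl_cpl] at h6)
    (by
      intro C hne hQ hch
      have hmem : ∀ X, X ∈ cpl (isInter C) ↔ ∃ s, s ∈ C ∧ X ∈ cpl s := by
        intro X
        rw [mem_cpl, mem_isInter]
        push Not
        simp only [mem_cpl]
      obtain ⟨s₀, hs₀⟩ := hne
      refine ⟨⟨⟨?_, ?_, ?_, ?_⟩, ?_⟩, ?_⟩
      · exact (hmem _).2 ⟨s₀, hs₀, (hQ s₀ hs₀).1.1.1⟩
      · intro h
        obtain ⟨s, hs, h'⟩ := (hmem _).1 h
        exact (hQ s hs).1.1.2.1 h'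
      · intro A A' hA hAA'
        obtain ⟨s, hs, h'⟩ := (hmem _).1 hA
        exact (hmem _).2 ⟨s, hs, (hQ s hs).1.1.2.2.1 _ _ h' hAA'⟩
      · intro A A' hA hA'
        obtain ⟨s, hs, h1⟩ := (hmem _).1 hA
        obtain ⟨t, ht, h2⟩ := (hmem _).1 hA'
        rcases hch s t hs ht with h | h
        · exact (hmem _).2 ⟨s, hs, (hQ s hs).1.1.2.2.2 _ _ h1 (cpl_subset h _ h2)⟩
        · exact (hmem _).2 ⟨t, ht, (hQ t ht).1.1.2.2.2 _ _ (cpl_subset h _ h1) h2⟩
      · intro V hV hsub A hA
        obtain ⟨s, hs, h1⟩ := (hmem _).1 hA
        exact (hmem _).2 ⟨s, hs, (hQ s hs).1.2 V hV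
          (fun x hx => hsub x ((hmem _).2 ⟨s, hs, hx⟩)) A h1⟩
      · exact fun x hx => (hmem _).2 ⟨s₀, hs₀, (hQ s₀ hs₀).2 x hx⟩)
  obtain ⟨h4, h5, h6⟩ := hphi _ h1 h2
  refine h6 ?_
  rw [← cpl_cpl (phi T (cpl S)), h3]

end main

end semigroup

end Pool.Agent.U78.ZE
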