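import Pool.Agent.Helper672.SIK.Plain

/-!
# Additive filters on the positive natural numbers, in models of set theory

Everything is interpreted in a structure `M` for the language of set theory: a set is an element
of `M`, its elements are given by the membership relation of `M`, and all quantifiers over sets
range over `M`.
-/

namespace Pool.Agent.U78.ZED

open Pool.Agent.Helper672.Plain

universe u

variable {M : Type u} [LSet.Structure M]

/-- `x` is a subset of `y`. -/
def Sub (x y : M) : Prop := ∀ z, Mem z x → Mem z y

/-- `z` is the intersection of `x` and `y`. -/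
def IsInter (z x y : M) : Prop := ∀ w, Mem w z ↔ Mem w x ∧ Mem w y

/-- `z` is the difference of `x` and `y`. -/
def IsDiff (z x y : M) : Prop := ∀ w, Mem w z ↔ Mem w x ∧ ¬ Mem w y

/-- The element `z` of `N`, as a term of the type `El N`. -/
def elem {N : M} (z : M) (h : Mem z N) : El N := ⟨z, h⟩

/-- In the model, `N` with first element `one` and addition `add` is the semigroup of the positive
natural numbers (Peano's axioms in the model): `add` is given by an element of the model, the map
`x ↦ x + 1` is injective and does not take the value `1`, `x + (y + 1) = (x + y) + 1`, and every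
set of the model that contains `1` and is closed under `x ↦ x + 1` contains all of `N`. -/
structure IsPositiveNaturals (N : M) (one : El N) (add : El N → El N → El N) : Prop where
  graph : ∃ g, IsOpGraph add g
  succ_inj : ∀ x y : El N, add x one = add y one → x = y
  succ_ne_one : ∀ x : El N, add x one ≠ one
  add_succ : ∀ x y : El N, add x (add y one) = add (add x y) one
  induction : ∀ s : M, Mem one.1 s → (∀ x : El N, Mem x.1 s → Mem (add x one).1 s) →
    ∀ x : El N, Mem x.1 s

/-- `F` is a filter on `N`: a set of nonempty subsets of `N` that contains `N` and is closed under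
supersets and under intersections. -/
def IsFilter (N F : M) : Prop :=
  (∀ A, Mem A F → Sub A N ∧ ∃ x, Mem x A) ∧ Mem N F ∧
  (∀ A B, Mem A F → Sub A B → Sub B N → Mem B F) ∧
  ∀ A B C, Mem A F → Mem B F → IsInter C A B → Mem C F

/-- `V` is an ultrafilter on `N`: a filter that is maximal under inclusion. -/
def IsUltrafilter (N V : M) : Prop := IsFilter N V ∧ ∀ G, IsFilter N G → Sub V G → G = V

/-- `S` is the shift `A - n`, the set of all `m` in `N` with `m + n` in `A`. -/
def IsShift {N : M} (add : El N → El N → El N) (A : M) (n : El N) (S : M) : Prop :=
  ∀ m, Mem m S ↔ ∃ h : Mem m N, Mem (add (elem m h) n).1 A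

/-- `A` is in the pseudo-sum of `F` and `G`: the set of all `n` in `N` with `A - n` in `G` is in
`F`. -/
def InPseudoSum {N : M} (add : El N → El N → El N) (F G A : M) : Prop :=
  ∃ D, Mem D F ∧ ∀ n, Mem n D ↔ ∃ h : Mem n N, ∃ S, IsShift add A (elem n h) S ∧ Mem S G

/-- `F` is an additive filter on `N`: it is a filter, and for every ultrafilter `V` on `N` that
contains `F`, the filter `F` is contained in the pseudo-sum of `F` and `V`. -/
def IsAdditive (N : M) (add : El N → El N → El N) (F : M) : Prop :=
  IsFilter N F ∧ ∀ V, IsUltrafilter N V → Sub F V → ∀ A, Mem A F → InPseudoSum add F V A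

/-- The statement (E): for every additive filter `F` on `N` and every subset `B` of `N` there is
an additive filter `G` that contains `F` and contains `B` or the complement of `B`. -/
def StatementE (N : M) (add : El N → El N → El N) : Prop :=
  ∀ F, IsAdditive N add F → ∀ B, Sub B N →
    ∃ G, IsAdditive N add G ∧ Sub F G ∧ (Mem B G ∨ ∃ C, IsDiff C N B ∧ Mem C G)

end Pool.Agent.U78.ZED
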