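import Pool.Agent.U78.ZE.Core
import Pool.Agent.U78.ZE.Defs
import Pool.Agent.Helper672.SIK.Bridge

/-!
# The theorem for the positive natural numbers of a model
-/

set_option linter.unusedTactic false
set_option linter.unreachableTactic false
set_option linter.unusedSectionVars false

namespace Pool.Agent.U78.ZE

open Pool.Agent.Helper672 Pool.Agent.Helper672.ZFA Pool.Agent.U78.ZED

universe u

variable {M : Type u} [Plain.LSet.Structure M]

section

attribute [local instance] Plain.toL Plain.isModel_toL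

variable [hZ : Plain.Zermelo M]

/-- The elements of an element of the model. -/
@[reducible] noncomputable def elI (N : M) : ITy M (Plain.El N) where
  code z := z.1
  inj _ _ h := Subtype.ext h
  small := ⟨N, trivial, fun z => ⟨fun h => ⟨⟨z, h⟩, rfl⟩, fun ⟨a, h⟩ => h ▸ a.2⟩⟩

attribute [local instance] elI

theorem ext_M {x y : M} (h : ∀ z, Plain.Mem z x ↔ Plain.Mem z y) : x = y := hZ.ext x y h

section conv

variable {α : Type u} [ITy M α]

/-- The subset given by an element of the model. -/
def toPow (α : Type u) [ITy M α] (A : M) : IPow M α :=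
  ⟨fun x => Mem (code x) A, ⟨A, fun _ => Iff.rfl⟩⟩

theorem mem_toPow {A : M} {x : α} : x ∈ toPow α A ↔ Mem (code x) A := Iff.rfl

theorem mem_codeP {s : IPow M α} {z : M} :
    Plain.Mem z (code (M := M) s) ↔ ∃ a, a ∈ s ∧ code a = z := mem_code_pow (s := s) (z := z)

theorem mem_codeP' {s : IPow M α} {a : α} :
    Plain.Mem (code (M := M) a) (code (M := M) s) ↔ a ∈ s := mem_code_iff (s := s) (a := a)

theorem toPow_code (A : IPow M α) : toPow α (code (M := M) A) = A :=
  IPow.ext' fun _ => mem_toPow.trans mem_code_iff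

theorem code_toPow {A : M} (h : ∀ z, Mem z A → ∃ a : α, code a = z) :
    code (M := M) (toPow α A) = A := by
  refine ext_M fun z => ?_
  refine (mem_code_pow (s := toPow α A) (z := z)).trans ⟨?_, fun hz => ?_⟩
  · rintro ⟨a, ha, rfl⟩
    exact ha
  · obtain ⟨a, rfl⟩ := h z hz
    exact ⟨a, hz, rfl⟩

end conv

variable {N : M}

theorem sub_iff {A : M} : Sub A N ↔ ∃ A' : IPow M (Plain.El N), code (M := M) A' = A := by
  constructor
  · intro h
    exact ⟨toPow _ A, code_toPow fun z hz => ⟨⟨z, h z hz⟩, rfl⟩⟩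
  · rintro ⟨A', rfl⟩ z hz
    obtain ⟨a, -, rfl⟩ := mem_codeP.1 hz
    exact a.2

theorem subs_iff {F : M} : (∀ A, Plain.Mem A F → Sub A N) ↔
    ∃ F' : IPow M (IPow M (Plain.El N)), code (M := M) F' = F := by
  constructor
  · intro h
    exact ⟨toPow _ F, code_toPow fun z hz => sub_iff.1 (h z hz)⟩
  · rintro ⟨F', rfl⟩ A hA
    obtain ⟨a, -, rfl⟩ := mem_codeP.1 hA
    exact sub_iff.2 ⟨a, rfl⟩

theorem sub_code {α : Type u} [ITy M α] {A B : IPow M α} :
    Sub (code (M := M) A) (code (M := M) B) ↔ A ⊆ B := by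
  constructor
  · intro h x hx
    exact mem_codeP'.1 (h _ (mem_codeP'.2 hx))
  · intro h z hz
    obtain ⟨a, ha, rfl⟩ := mem_codeP.1 hz
    exact mem_codeP'.2 (h a ha)

theorem code_univ : code (M := M) (iuniv M (Plain.El N)) = N := by
  refine ext_M fun z => ?_
  refine (mem_code_pow (s := iuniv M (Plain.El N)) (z := z)).trans ⟨?_, fun hz => ?_⟩
  · rintro ⟨a, ha, rfl⟩
    exact a.2
  · exact ⟨⟨z, hz⟩, mem_iuniv.2 trivial, rfl⟩

theorem isInter_iff {A B C : IPow M (Plain.El N)} :
    IsInter (code (M := M) C) (code (M := M) A) (code (M := M) B) ↔ C = A ∩ B := by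
  constructor
  · intro h
    refine IPow.ext' fun x => ?_
    have h1 := h (code x)
    rw [mem_inter, ← mem_codeP' (M := M), ← mem_codeP' (M := M), ← mem_codeP' (M := M)]
    exact h1
  · rintro rfl w
    constructor
    · intro h
      obtain ⟨a, ha, rfl⟩ := mem_codeP.1 h
      rw [mem_inter] at ha
      exact ⟨mem_codeP'.2 ha.1, mem_codeP'.2 ha.2⟩
    · rintro ⟨h1, h2⟩
      obtain ⟨a, ha, rfl⟩ := mem_codeP.1 h1
      exact mem_codeP'.2 (mem_inter.2 ⟨ha, mem_codeP'.1 h2⟩)

theorem isDiff_code {B : IPow M (Plain.El N)} :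
    IsDiff (code (M := M) (cpl B)) N (code (M := M) B) := by
  intro w
  constructor
  · intro h
    obtain ⟨a, ha, rfl⟩ := mem_codeP.1 h
    rw [mem_cpl] at ha
    exact ⟨a.2, fun h1 => ha (mem_codeP'.1 h1)⟩
  · rintro ⟨h1, h2⟩
    have h3 : elem w h1 ∈ cpl B := mem_cpl.2 fun h3 => h2 (mem_codeP'.2 h3)
    exact mem_codeP'.2 h3

theorem isFilter_code {F : IPow M (IPow M (Plain.El N))} :
    IsFilter N (code (M := M) F) ↔ Fil F := by
  constructor
  · rintro ⟨h1, h2, h3, h4⟩
    refine ⟨?_, ?_, ?_, ?_⟩
    · rw [← mem_codeP' (M := M), code_univ]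
      exact h2
    · intro h
      obtain ⟨x, hx⟩ := (h1 _ (mem_codeP'.2 h)).2
      obtain ⟨a, ha, -⟩ := mem_codeP.1 hx
      exact absurd ha (by simp)
    · intro A B hA hAB
      rw [← mem_codeP' (M := M)] at hA ⊢
      exact h3 _ _ hA (sub_code.2 hAB) (sub_iff.2 ⟨B, rfl⟩)
    · intro A B hA hB
      rw [← mem_codeP' (M := M)] at hA hB ⊢
      exact h4 _ _ _ hA hB (isInter_iff.2 rfl)
  · rintro ⟨h1, h2, h3, h4⟩
    refine ⟨?_, ?_, ?_, ?_⟩
    · intro A hA
      obtain ⟨A', hA', rfl⟩ := mem_codeP.1 hA
      refine ⟨sub_iff.2 ⟨A', rfl⟩, ?_⟩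
      obtain ⟨x, hx⟩ := Fil.nonempty ⟨h1, h2, h3, h4⟩ hA'
      exact ⟨_, mem_codeP'.2 hx⟩
    · have h5 := mem_codeP'.2 h1
      rw [code_univ] at h5
      exact h5
    · intro A B hA hAB hB
      obtain ⟨A', hA', rfl⟩ := mem_codeP.1 hA
      obtain ⟨B', rfl⟩ := sub_iff.1 hB
      exact mem_codeP'.2 (h3 _ _ hA' (sub_code.1 hAB))
    · intro A B C hA hB hC
      obtain ⟨A', hA', rfl⟩ := mem_codeP.1 hA
      obtain ⟨B', hB', rfl⟩ := mem_codeP.1 hB
      obtain ⟨C', rfl⟩ := sub_iff.1 (show Sub C N from fun z hz =>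
        sub_iff.2 ⟨A', rfl⟩ z ((hC z).1 hz).1)
      rw [isInter_iff] at hC
      subst hC
      exact mem_codeP'.2 (h4 _ _ hA' hB')

theorem exists_code_of_isFilter {F : M} (h : IsFilter N F) :
    ∃ F' : IPow M (IPow M (Plain.El N)), code (M := M) F' = F :=
  subs_iff.1 fun A hA => (h.1 A hA).1

theorem isUltrafilter_code {V : IPow M (IPow M (Plain.El N))} :
    IsUltrafilter N (code (M := M) V) ↔ Ult V := by
  constructor
  · rintro ⟨h1, h2⟩
    have hV := isFilter_code.1 h1
    refine ⟨hV, fun A => ?_⟩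
    by_contra h3
    push Not at h3
    have hF : Fil (mix V {A}) := by
      refine fil_mix hV ?_ ⟨A, mem_singleton.2 rfl⟩ ?_
      · intro P Q hP hQ
        rw [mem_singleton] at hP hQ ⊢
        subst hP hQ
        exact IPow.ext' fun x => by simp
      · intro C P hC hP
        rw [mem_singleton] at hP
        subst hP
        by_contra h4
        push Not at h4
        exact h3.2 (hV.2.2.1 _ _ hC fun x hx => mem_cpl.2 (h4 x hx))
    have h4 := h2 _ (isFilter_code.2 hF) (sub_code.2 (subset_mix_left ⟨A, mem_singleton.2 rfl⟩))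
    have h5 : A ∈ mix V {A} := subset_mix_right hV _ (mem_singleton.2 rfl)
    rw [← mem_codeP' (M := M), h4, mem_codeP'] at h5
    exact h3.1 h5
  · rintro ⟨h1, h2⟩
    refine ⟨isFilter_code.2 h1, fun G hG hVG => ?_⟩
    obtain ⟨G', rfl⟩ := exists_code_of_isFilter hG
    rw [isFilter_code] at hG
    rw [sub_code] at hVG
    refine congrArg code (IPow.ext' fun A => ⟨fun hA => ?_, fun hA => hVG A hA⟩)
    rcases h2 A with h3 | h3
    · exact h3
    · exact absurd (hG.not_both hA (hVG _ h3)) id

section add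

variable {one : Plain.El N} {add : Plain.El N → Plain.El N → Plain.El N}

theorem intF_add (h : IsPositiveNaturals N one add) :
    IntF M (fun q : Plain.El N × Plain.El N => add q.1 q.2) := by
  obtain ⟨g, hg⟩ := h.graph
  refine ⟨g, ?_⟩
  rintro ⟨⟨x, y⟩, z⟩
  refine Iff.trans ?_ (hg x y z).symm
  constructor
  · intro h1
    exact ⟨_, _, Plain.isOrdPair_toL.1 (isOrdPair_iff_op.2 rfl),
      Plain.isOrdPair_toL.1 (isOrdPair_iff_op.2 rfl), h1⟩
  · rintro ⟨p, q, h1, h2, h3⟩
    rw [← Plain.isOrdPair_toL, isOrdPair_iff_op] at h1 h2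
    subst h1 h2
    exact h3

theorem ind_N (h : IsPositiveNaturals N one add) {p : Plain.El N → Prop} (hp : Int M p)
    (h0 : p one) (h1 : ∀ x, p x → p (add x one)) : ∀ x, p x := by
  obtain ⟨s, hs⟩ := hp
  intro x
  exact (hs x).1 (h.induction s ((hs one).2 h0) (fun y hy => (hs _).2 (h1 y ((hs y).1 hy))) x)

theorem add_assoc_N (h : IsPositiveNaturals N one add) (x y z : Plain.El N) :
    add (add x y) z = add x (add y z) := by
  have hadd := intF_add h
  refine ind_N h (p := fun z => add (add x y) z = add x (add y z)) ?_ ?_ ?_ z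
  · exact Int.eq (IntF.comp₂ (p := add) hadd (IntF.const _) IntF.id) (IntF.comp₂ (p := add) hadd
      (IntF.const _) (IntF.comp₂ (p := add) hadd (IntF.const _) IntF.id))
  · exact (h.add_succ x y).symm
  · intro z ih
    rw [h.add_succ, ih, h.add_succ, h.add_succ]

/-- The semigroup. -/
@[reducible] def sgN (h : IsPositiveNaturals N one add) : AddSemigroup (Plain.El N) where
  add := add
  add_assoc := add_assoc_N h

theorem iadd_N (h : IsPositiveNaturals N one add) :
    letI := sgN h
    IAdd M (Plain.El N) :=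
  let _ := sgN h
  ⟨intF_add h⟩

/-- The enumeration. -/
theorem exists_enum (h : IsPositiveNaturals N one add) :
    ∃ e : INat M → Plain.El N, IntF M e ∧ ∀ x, ∃ n, e n = x := by
  have hadd := intF_add h
  have hf : IntF M (fun q : INat M × Plain.El N => add q.2 one) :=
    IntF.comp₂ (p := add) hadd IntF.snd' (IntF.const _)
  have hf' : IntF M (fun q : (INat M × INat M) × Plain.El N => add q.2 one) :=
    IntF.comp₂ (p := add) hadd IntF.snd' (IntF.const _)
  have he : IntF M (fun n : INat M => irec one (fun _ x => add x one) n) :=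
    IntF.irec (IntF.const _) hf' IntF.id
  refine ⟨fun n => irec one (fun _ x => add x one) n, he, ?_⟩
  refine ind_N h ?_ ?_ ?_
  · exact Int.ex (Int.eq (IntF.comp he IntF.snd') IntF.fst')
  · exact ⟨0, irec_zero (f := fun _ x => add x one) hf⟩
  · rintro x ⟨n, hn⟩
    refine ⟨n.succ, ?_⟩
    have h1 := irec_succ (a := one) (f := fun _ x => add x one) hf n
    refine h1.trans (congrArg (fun t => add t one) ?_)
    exact hn

theorem isShift_iff (h : IsPositiveNaturals N one add) {A : IPow M (Plain.El N)}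
    {n : Plain.El N} {S : M} :
    letI := sgN h
    letI := iadd_N h
    IsShift add (code (M := M) A) n S ↔ S = code (M := M) (sh A n) := by
  let _ := sgN h
  let _ := iadd_N h
  have h1 : ∀ m, Plain.Mem m (code (M := M) (sh A n)) ↔
      ∃ h : Plain.Mem m N, Plain.Mem (add (elem m h) n).1 (code (M := M) A) := by
    intro m
    constructor
    · intro h2
      obtain ⟨a, ha, rfl⟩ := mem_codeP.1 h2
      rw [mem_sh] at ha
      exact ⟨a.2, mem_codeP'.2 ha⟩
    · rintro ⟨h2, h3⟩
      have h4 : elem m h2 ∈ sh A n := mem_sh.2 (mem_codeP'.1 h3)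
      exact mem_codeP'.2 h4
  constructor
  · intro h2
    exact ext_M fun m => (h2 m).trans (h1 m).symm
  · rintro rfl
    exact h1

theorem inPseudoSum_iff (h : IsPositiveNaturals N one add) {F G : IPow M (IPow M (Plain.El N))}
    {A : IPow M (Plain.El N)} :
    letI := sgN h
    letI := iadd_N h
    InPseudoSum add (code (M := M) F) (code (M := M) G) (code (M := M) A) ↔ dd G A ∈ F := by
  let _ := sgN h
  let _ := iadd_N h
  have h1 : ∀ n, Plain.Mem n (code (M := M) (dd G A)) ↔ ∃ h : Plain.Mem n N, ∃ S,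
      IsShift add (code (M := M) A) (elem n h) S ∧ Plain.Mem S (code (M := M) G) := by
    intro n
    constructor
    · intro h2
      obtain ⟨a, ha, rfl⟩ := mem_codeP.1 h2
      rw [mem_dd] at ha
      exact ⟨a.2, _, (isShift_iff h).2 rfl, mem_codeP'.2 ha⟩
    · rintro ⟨h2, S, h3, h4⟩
      rw [isShift_iff h] at h3
      subst h3
      have h5 : elem n h2 ∈ dd G A := mem_dd.2 (mem_codeP'.1 h4)
      exact mem_codeP'.2 h5
  constructor
  · rintro ⟨D, hD, h2⟩
    have h3 : D = code (M := M) (dd G A) := ext_M fun n => (h2 n).trans (h1 n).symm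
    rw [h3] at hD
    exact mem_codeP'.1 hD
  · intro h2
    exact ⟨_, mem_codeP'.2 h2, h1⟩

theorem isAdditive_code (h : IsPositiveNaturals N one add)
    {F : IPow M (IPow M (Plain.El N))} :
    letI := sgN h
    letI := iadd_N h
    IsAdditive N add (code (M := M) F) ↔ Addv F := by
  let _ := sgN h
  let _ := iadd_N h
  refine and_congr isFilter_code ⟨fun h1 V hV hFV A hA => ?_, fun h1 V hV hFV A hA => ?_⟩
  · exact (inPseudoSum_iff h).1 (h1 _ (isUltrafilter_code.2 hV) (sub_code.2 hFV) _
      (mem_codeP'.2 hA))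
  · obtain ⟨V', rfl⟩ := exists_code_of_isFilter hV.1
    obtain ⟨A', hA', rfl⟩ := mem_codeP.1 hA
    exact (inPseudoSum_iff h).2 (h1 _ (isUltrafilter_code.1 hV) (sub_code.1 hFV) _ hA')

theorem statementE_of (h : IsPositiveNaturals N one add) : StatementE N add := by
  let _ := sgN h
  let _ := iadd_N h
  intro F hF B hB
  obtain ⟨F', rfl⟩ := exists_code_of_isFilter hF.1
  obtain ⟨B', rfl⟩ := sub_iff.1 hB
  rw [isAdditive_code h] at hF
  obtain ⟨e, he, hes⟩ := exists_enum h
  obtain ⟨G, h1, h2, h3⟩ := core he hes hF B'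
  refine ⟨code G, (isAdditive_code h).2 h1, sub_code.2 h2, ?_⟩
  rcases h3 with h3 | h3
  · exact Or.inl (mem_codeP'.2 h3)
  · exact Or.inr ⟨_, isDiff_code, mem_codeP'.2 h3⟩

end add

/-! ### Existence -/

theorem exists_positiveNaturals_aux : ∃ (N : M) (one : Plain.El N)
    (add : Plain.El N → Plain.El N → Plain.El N), IsPositiveNaturals N one add := by
  let N : M := dom M (INat M)
  have hN : ∀ n : INat M, Mem (code (M := M) n) N := fun n => code_mem_dom n
  have hN' : ∀ x : Plain.El N, ∃ n : INat M, code n = x.1 := fun x => mem_dom.1 x.2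
  choose c hc using hN'
  let d : INat M → Plain.El N := fun n => ⟨code n, hN n⟩
  have hcd : ∀ n, c (d n) = n := fun n => ITy.inj (M := M) (hc (d n))
  have hdc : ∀ x, d (c x) = x := fun x => Subtype.ext (hc x)
  let add : Plain.El N → Plain.El N → Plain.El N := fun x y => d (c x + c y).succ
  have hadd : ∀ m n, add (d m) (d n) = d (m + n).succ := fun m n => by
    change d (c (d m) + c (d n)).succ = _
    rw [hcd, hcd]
  have hadd1 : ∀ m, add (d m) (d 0) = d m.succ := fun m => by
    rw [hadd, add_zero]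
  have hdinj : ∀ m n, d m = d n → m = n := fun m n h => by
    rw [← hcd m, h, hcd]
  refine ⟨N, d 0, add, ?_, ?_, ?_, ?_, ?_⟩
  · have h1 : IntF M (fun q : INat M × INat M => (q.1 + q.2).succ) := by (repeat first | with_reducible exact Int.const _ | with_reducible exact IntF.const _ | with_reducible exact IntF.id | with_reducible exact IntF.fst' | with_reducible exact IntF.snd' | with_reducible assumption | with_reducible apply Int.and | with_reducible apply Int.or | with_reducible apply Int.not | with_reducible apply Int.imp | with_reducible apply Int.iff | with_reducible apply Int.ex | with_reducible apply Int.all | with_reducible apply Int.eq | with_reducible apply Int.ne | with_reducible apply Int.mem | with_reducible apply Int.subset | with_reducible apply IntF.fst | with_reducible apply IntF.snd | with_reducible apply IntF.pair | with_reducible apply IntF.sep | with_reducible_and_instances apply IntF.add | with_reducible apply IntF.inter | with_reducible apply IntF.union | with_reducible apply IntF.app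 | with_reducible apply IntF.succ | with_reducible ((refine Int.comp ?_ ?_); assumption) | with_reducible ((refine IntF.comp ?_ ?_); assumption) | with_reducible ((refine IntF.comp₂ ?_ ?_ ?_); assumption) | with_reducible ((refine Int.comp₂ ?_ ?_ ?_); assumption))
    obtain ⟨g, hg⟩ := h1
    refine ⟨g, fun x y z => ?_⟩
    rw [← hdc x, ← hdc y, ← hdc z, hadd]
    have h2 := hg ((c x, c y), c z)
    constructor
    · intro h3
      exact ⟨_, _, Plain.isOrdPair_toL.1 (isOrdPair_iff_op.2 rfl),
        Plain.isOrdPair_toL.1 (isOrdPair_iff_op.2 rfl), h2.2 (hdinj _ _ h3)⟩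
    · rintro ⟨p, q, h3, h4, h5⟩
      rw [← Plain.isOrdPair_toL, isOrdPair_iff_op] at h3 h4
      subst h3 h4
      exact congrArg d (h2.1 h5)
  · intro x y h
    rw [← hdc x, ← hdc y, hadd1, hadd1] at h
    rw [← hdc x, ← hdc y, INat.succ_inj (hdinj _ _ h)]
  · intro x h
    rw [← hdc x, hadd1] at h
    exact INat.succ_ne_zero _ (hdinj _ _ h)
  · intro x y
    have h1 : add (d (c x)) (d (c y).succ) = d (c x + (c y).succ).succ := hadd _ _
    have h2 : add (add (d (c x)) (d (c y))) (d 0) = d ((c x + c y).succ).succ :=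
      (congrArg (fun t => add t (d 0)) (hadd (c x) (c y))).trans (hadd1 _)
    rw [← hdc x, ← hdc y, hadd1, h1, h2, INat.add_succ']
  · intro s h0 h1 x
    have h2 : Int M (fun n : INat M => Mem (code (M := M) n) s) := ⟨s, fun _ => Iff.rfl⟩
    have h3 := INat.ind (p := fun n : INat M => Mem (code (M := M) n) s) h2 h0 (fun n hn => by
      have h4 := h1 (d n) hn
      rw [hadd1] at h4
      exact h4) (c x)
    rw [← hdc x]
    exact h3

end

/-- Every model of Zermelo set theory has positive natural numbers. -/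
theorem exists_positiveNaturals (M : Type u) [Plain.LSet.Structure M] [Plain.Zermelo M] :
    ∃ (N : M) (one : Plain.El N) (add : Plain.El N → Plain.El N → Plain.El N),
      IsPositiveNaturals N one add := exists_positiveNaturals_aux

/-- The statement (E) holds in every model of Zermelo set theory. -/
theorem statementE (M : Type u) [Plain.LSet.Structure M] [Plain.Zermelo M] (N : M)
    (one : Plain.El N) (add : Plain.El N → Plain.El N → Plain.El N)
    (h : IsPositiveNaturals N one add) : StatementE N add := statementE_of h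

end Pool.Agent.U78.ZE
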